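import Mathlib

set_option autoImplicit false

/-!
Equality-free two-variable first-order logic with two equivalence relations: syntax, semantics,
signatures, free variables, interpolants, and a Gödel numbering of the formulas.
-/

namespace Pool.Agent.LibFO2E

/-- The two individual variables. -/
inductive Var where
  | x | y
  deriving DecidableEq

/-- Formulas built from the atoms `P(v)` (`un P v`, unary predicate symbol number `P`) and `R(v, w)`
(`bin R v w`, binary predicate symbol number `R`; the symbols `0` and `1` are the distinguished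
symbols `E₁` and `E₂`) by negation, conjunction and existential quantification over `x`, `y`. -/
inductive Fml where
  | un (P : ℕ) (v : Var)
  | bin (R : ℕ) (v w : Var)
  | neg (φ : Fml)
  | and (φ ψ : Fml)
  | ex (v : Var) (φ : Fml)

/-- A structure: a nonempty domain, an interpretation of every unary and every binary predicate
symbol, where the binary symbols `0` and `1` are interpreted by equivalence relations. -/
structure Str where
  D : Type
  nonempty : Nonempty D
  un : ℕ → D → Prop
  bin : ℕ → D → D → Prop
  equiv₁ : Equivalence (bin 0)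
  equiv₂ : Equivalence (bin 1)

/-- The value of a variable when `x` has the value `a` and `y` has the value `b`. -/
def Var.val {D : Type} : Var → D → D → D
  | .x, a, _ => a
  | .y, _, b => b

/-- `Sat S φ a b`: the formula `φ` holds in `S` when `x` has the value `a` and `y` the value `b`. -/
def Sat (S : Str) : Fml → S.D → S.D → Prop
  | .un P v, a, b => S.un P (v.val a b)
  | .bin R v w, a, b => S.bin R (v.val a b) (w.val a b)
  | .neg φ, a, b => ¬ Sat S φ a b
  | .and φ ψ, a, b => Sat S φ a b ∧ Sat S ψ a b
  | .ex .x φ, _, b => ∃ d, Sat S φ d b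
  | .ex .y φ, a, _ => ∃ d, Sat S φ a d

/-- The unary predicate symbols occurring in a formula. -/
def usig : Fml → Set ℕ
  | .un P _ => {P}
  | .bin _ _ _ => ∅
  | .neg φ => usig φ
  | .and φ ψ => usig φ ∪ usig ψ
  | .ex _ φ => usig φ

/-- The binary predicate symbols occurring in a formula. -/
def bsig : Fml → Set ℕ
  | .un _ _ => ∅
  | .bin R _ _ => {R}
  | .neg φ => bsig φ
  | .and φ ψ => bsig φ ∪ bsig ψ
  | .ex _ φ => bsig φ

/-- The free variables of a formula. -/
def fv : Fml → Set Var
  | .un _ v => {v}
  | .bin _ v w => {v, w}
  | .neg φ => fv φ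
  | .and φ ψ => fv φ ∪ fv ψ
  | .ex v φ => fv φ \ {v}

/-- `φ ⊨ ψ`: every structure and every assignment satisfying `φ` satisfies `ψ`. -/
def Entails (φ ψ : Fml) : Prop := ∀ (S : Str) (a b : S.D), Sat S φ a b → Sat S ψ a b

/-- `ι` is an interpolant of `φ` and `ψ`: its predicate symbols occur both in `φ` and in `ψ`, its
free variables are among those of `φ` and of `ψ`, and `φ ⊨ ι`, `ι ⊨ ψ`. -/
def IsInterpolant (φ ψ ι : Fml) : Prop :=
  usig ι ⊆ usig φ ∩ usig ψ ∧ bsig ι ⊆ bsig φ ∩ bsig ψ ∧ fv ι ⊆ fv φ ∩ fv ψ ∧
    Entails φ ι ∧ Entails ι ψ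

/-- The number of a variable. -/
def Var.num : Var → ℕ
  | .x => 0
  | .y => 1

/-- The Gödel number of a formula. -/
def code : Fml → ℕ
  | .un P v => 5 * (2 * P + v.num)
  | .bin R v w => 5 * (4 * R + 2 * v.num + w.num) + 1
  | .neg φ => 5 * code φ + 2
  | .and φ ψ => 5 * Nat.pair (code φ) (code ψ) + 3
  | .ex v φ => 5 * (2 * code φ + v.num) + 4

theorem num_lt (v : Var) : v.num < 2 := by cases v <;> simp [Var.num]

theorem num_inj {v w : Var} (h : v.num = w.num) : v = w := by
  cases v <;> cases w <;> simp_all [Var.num]

/-- Different formulas have different Gödel numbers. -/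
theorem code_injective : Function.Injective code := by
  intro φ
  induction φ with
  | un P v =>
    intro ψ h
    have := num_lt v
    cases ψ with
    | un P' v' =>
      have := num_lt v'
      simp only [code] at h
      have h1 : P = P' := by omega
      have h2 : v = v' := num_inj (by omega)
      rw [h1, h2]
    | _ => simp only [code] at h; omega
  | bin R v w =>
    intro ψ h
    have := num_lt v
    have := num_lt w
    cases ψ with
    | bin R' v' w' =>
      have := num_lt v'
      have := num_lt w'
      simp only [code] at h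
      have h1 : R = R' := by omega
      have h2 : v = v' := num_inj (by omega)
      have h3 : w = w' := num_inj (by omega)
      rw [h1, h2, h3]
    | _ => simp only [code] at h; omega
  | neg φ ih =>
    intro ψ h
    cases ψ with
    | neg φ' =>
      simp only [code] at h
      rw [ih (show code φ = code φ' by omega)]
    | _ => simp only [code] at h; omega
  | and φ ψ ih1 ih2 =>
    intro χ h
    cases χ with
    | and φ' ψ' =>
      simp only [code] at h
      have h1 : Nat.pair (code φ) (code ψ) = Nat.pair (code φ') (code ψ') := by omega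
      obtain ⟨h2, h3⟩ := Nat.pair_eq_pair.1 h1
      rw [ih1 h2, ih2 h3]
    | _ => simp only [code] at h; omega
  | ex v φ ih =>
    intro ψ h
    have := num_lt v
    cases ψ with
    | ex v' φ' =>
      have := num_lt v'
      simp only [code] at h
      have h1 : v = v' := num_inj (by omega)
      rw [ih (show code φ = code φ' by omega), h1]
    | _ => simp only [code] at h; omega

theorem exists_num (n : ℕ) (h : n < 2) : ∃ v : Var, v.num = n := by
  interval_cases n
  · exact ⟨.x, rfl⟩
  · exact ⟨.y, rfl⟩

/-- Every natural number is the Gödel number of a formula. -/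
theorem code_surjective : Function.Surjective code := by
  intro n
  induction n using Nat.strong_induction_on with
  | _ n ih =>
    have h5 : n % 5 < 5 := Nat.mod_lt _ (by norm_num)
    obtain ⟨m, hm⟩ : ∃ m, m = n / 5 := ⟨_, rfl⟩
    have hn : n = 5 * m + n % 5 := by omega
    interval_cases hr : n % 5
    · obtain ⟨v, hv⟩ := exists_num (m % 2) (by omega)
      exact ⟨.un (m / 2) v, by simp only [code, hv]; omega⟩
    · obtain ⟨v, hv⟩ := exists_num (m / 2 % 2) (by omega)
      obtain ⟨w, hw⟩ := exists_num (m % 2) (by omega)
      exact ⟨.bin (m / 4) v w, by simp only [code, hv, hw]; omega⟩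
    · obtain ⟨φ, hφ⟩ := ih m (by omega)
      exact ⟨.neg φ, by simp only [code, hφ]; omega⟩
    · obtain ⟨φ, hφ⟩ := ih m.unpair.1 (by have := Nat.unpair_left_le m; omega)
      obtain ⟨ψ, hψ⟩ := ih m.unpair.2 (by have := Nat.unpair_right_le m; omega)
      exact ⟨.and φ ψ, by simp only [code, hφ, hψ, Nat.pair_unpair]; omega⟩
    · obtain ⟨v, hv⟩ := exists_num (m % 2) (by omega)
      obtain ⟨φ, hφ⟩ := ih (m / 2) (by omega)
      exact ⟨.ex v φ, by simp only [code, hv, hφ]; omega⟩

end Pool.Agent.LibFO2E
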