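import Mathlib
import Pool.Agent.LibFO2E.Defs
import Pool.Agent.LibQA.Defs

set_option autoImplicit false

/-!
The two formulas of the reduction.
-/

namespace Pool.Agent.LibFO2E

open Fml Var

/-! ### Derived connectives -/

def imp (φ ψ : Fml) : Fml := neg (and φ (neg ψ))
def or (φ ψ : Fml) : Fml := neg (and (neg φ) (neg ψ))
def all (v : Var) (φ : Fml) : Fml := neg (ex v (neg φ))
def taut : Fml := imp (un 0 x) (un 0 x)
def conj (l : List Fml) : Fml := l.foldr and taut
def disj (l : List Fml) : Fml := l.foldr or (neg taut)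
def conjF (n : ℕ) (f : ℕ → Fml) : Fml := conj ((List.range n).map f)
def disjF (n : ℕ) (f : ℕ → Fml) : Fml := disj ((List.range n).map f)

section Sat
variable (S : Str) (a b : S.D)

@[simp] theorem val_x {D : Type} (a b : D) : x.val a b = a := rfl
@[simp] theorem val_y {D : Type} (a b : D) : y.val a b = b := rfl
@[simp] theorem sat_un (P : ℕ) (v : Var) : Sat S (un P v) a b ↔ S.un P (v.val a b) := Iff.rfl
@[simp] theorem sat_bin (R : ℕ) (v w : Var) :
    Sat S (bin R v w) a b ↔ S.bin R (v.val a b) (w.val a b) := Iff.rfl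
@[simp] theorem sat_neg (φ : Fml) : Sat S (neg φ) a b ↔ ¬ Sat S φ a b := Iff.rfl
@[simp] theorem sat_and (φ ψ : Fml) : Sat S (and φ ψ) a b ↔ Sat S φ a b ∧ Sat S ψ a b := Iff.rfl
@[simp] theorem sat_ex_x (φ : Fml) : Sat S (ex x φ) a b ↔ ∃ d, Sat S φ d b := Iff.rfl
@[simp] theorem sat_ex_y (φ : Fml) : Sat S (ex y φ) a b ↔ ∃ d, Sat S φ a d := Iff.rfl
@[simp] theorem sat_imp (φ ψ : Fml) :
    Sat S (imp φ ψ) a b ↔ (Sat S φ a b → Sat S ψ a b) := by
  simp only [imp, sat_neg, sat_and]; tauto
@[simp] theorem sat_or (φ ψ : Fml) :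
    Sat S (or φ ψ) a b ↔ (Sat S φ a b ∨ Sat S ψ a b) := by
  simp only [or, sat_neg, sat_and]; tauto
@[simp] theorem sat_all_x (φ : Fml) : Sat S (all x φ) a b ↔ ∀ d, Sat S φ d b := by
  simp only [all, sat_neg, sat_ex_x]; push Not; rfl
@[simp] theorem sat_all_y (φ : Fml) : Sat S (all y φ) a b ↔ ∀ d, Sat S φ a d := by
  simp only [all, sat_neg, sat_ex_y]; push Not; rfl
@[simp] theorem sat_taut : Sat S taut a b := by simp [taut]
@[simp] theorem sat_conj (l : List Fml) : Sat S (conj l) a b ↔ ∀ φ ∈ l, Sat S φ a b := by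
  induction l with
  | nil => simp [conj]
  | cons φ l ih =>
    rw [show conj (φ :: l) = and φ (conj l) from rfl, sat_and, ih]
    simp
@[simp] theorem sat_disj (l : List Fml) : Sat S (disj l) a b ↔ ∃ φ ∈ l, Sat S φ a b := by
  induction l with
  | nil => simp [disj]
  | cons φ l ih =>
    rw [show disj (φ :: l) = or φ (disj l) from rfl, sat_or, ih]
    simp
@[simp] theorem sat_conjF (n : ℕ) (f : ℕ → Fml) :
    Sat S (conjF n f) a b ↔ ∀ i < n, Sat S (f i) a b := by
  simp [conjF]
@[simp] theorem sat_disjF (n : ℕ) (f : ℕ → Fml) :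
    Sat S (disjF n f) a b ↔ ∃ i < n, Sat S (f i) a b := by
  simp [disjF]
end Sat

/-! ### Names of the predicates -/

/-- phase predicates `T₀, …, T₄` are the unary symbols `0, …, 4` -/
def E1 (v w : Var) : Fml := bin 0 v w
def E2 (v w : Var) : Fml := bin 1 v w
def R (v w : Var) : Fml := bin 2 v w
/-- letters (shared) -/
def Ls (c : ℕ) : ℕ := 4 * c + 16
/-- label of a point (private) -/
def Xs (q a : ℕ) : ℕ := 4 * Nat.pair q a + 17
/-- next state (private) -/
def Ns (q : ℕ) : ℕ := 4 * q + 18
/-- position in an output word (private) -/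
def Ks (q a p : ℕ) : ℕ := 4 * Nat.pair (Nat.pair q a) p + 19

/-- `∀ x ∀ y (φ → ψ)` -/
def ax (φ ψ : Fml) : Fml := all x (all y (imp φ ψ))

@[simp] theorem sat_ax (S : Str) (a b : S.D) (φ ψ : Fml) :
    Sat S (ax φ ψ) a b ↔ ∀ d e, Sat S φ d e → Sat S ψ d e := by
  simp [ax]

/-- The phase axioms and the axiom saying that letters are only at phase `0`. -/
def shAx (k : ℕ) : Fml := conj [
  ax (and (un 4 x) (R x y)) (and (E1 x y) (and (E2 x y) (un 0 y))),
  ax (and (un 0 x) (R x y)) (and (E1 x y) (un 1 y)),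
  ax (and (un 1 x) (R x y)) (and (E1 x y) (un 2 y)),
  ax (and (un 2 x) (R x y)) (and (E2 x y) (un 3 y)),
  ax (and (un 3 x) (R x y)) (and (E2 x y) (un 0 y)),
  conjF k fun c => all x (imp (un (Ls c) x) (un 0 x))]

/-- Uniqueness axiom: any two elements with `P` and `T` which are related by `e` are related
by `e'`. -/
def uniq (P T e e' : ℕ) : Fml :=
  ax (and (un P x) (and (un P y) (and (un T x) (and (un T y) (bin e x y))))) (bin e' x y)

/-- The negation of the right hand formula. The private predicate is `5`. -/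
def npsi (k : ℕ) : Fml := conj [
  un 5 x, un 4 x, shAx k,
  ax (and (un 5 x) (R x y)) (un 5 y),
  uniq 5 1 0 1, uniq 5 2 0 1, uniq 5 3 1 0, uniq 5 0 1 0,
  conjF k fun c => conjF k fun c' =>
    ax (and (un 5 x) (and (un 5 y) (and (un 0 x) (and (un 0 y) (and (E1 x y) (un (Ls c) x))))))
      (if c = c' then un (Ls c') y else neg (un (Ls c') y))]

def psi (k : ℕ) : Fml := neg (npsi k)

section phi
variable (s k : ℕ) (δ : ℕ → ℕ → Option (ℕ × List ℕ)) (q₀ : ℕ)

/-- `y` is labelled by some pair `(q, a)` at which `δ` is defined. -/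
def zst (q : ℕ) : Fml := disjF k fun a => if (δ q a).isSome then un (Xs q a) y else neg taut

/-- Conjunction over all `(q, a)` with `δ q a = some r`. -/
def conjD (f : ℕ → ℕ → ℕ × List ℕ → Fml) : Fml :=
  conjF s fun q => conjF k fun a => match δ q a with
    | none => taut
    | some r => f q a r

@[simp] theorem sat_conjD (S : Str) (a b : S.D) (f : ℕ → ℕ → ℕ × List ℕ → Fml) :
    Sat S (conjD s k δ f) a b ↔
      ∀ q < s, ∀ c < k, ∀ r, δ q c = some r → Sat S (f q c r) a b := by
  simp only [conjD, sat_conjF]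
  refine forall_congr' fun q => forall_congr' fun _ => forall_congr' fun c =>
    forall_congr' fun _ => ?_
  cases h : δ q c <;> simp

/-- `v` starts to read the output word of the label of its point. -/
def start (v : Var) : Fml := conjD s k δ fun q a _ => imp (un (Xs q a) v) (un (Ks q a 0) v)

/-- Axioms about reading position `p` of the output word `r.2` for the label `(q, a)`. -/
def kax (q a : ℕ) (r : ℕ × List ℕ) (p : ℕ) : Fml := conj [
  all x (imp (and (un (Ks q a p) x) (un 0 x)) (un (Ls (r.2.getD p 0)) x)),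
  ax (and (un (Ks q a p) x) (and (un 0 x) (R x y))) (un (Ks q a p) y),
  ax (and (un (Ks q a p) x) (and (un 1 x) (R x y))) (un (Ks q a p) y),
  ax (and (un (Ks q a p) x) (and (un 2 x) (R x y))) (un (Ks q a p) y),
  all x (imp (and (un (Ks q a p) x) (un 2 x)) (un (if p + 1 < r.2.length then 8 else 9) x)),
  ax (and (un (Ks q a p) x) (and (un 3 x) (R x y)))
    (if p + 1 < r.2.length then un (Ks q a (p + 1)) y else start s k δ y)]

/-- The part of the left hand formula not depending on the input. Private predicates: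
`7` main, `6` first track, `8` (`Q`), `9` (`A`), `10` (`I`). -/
def phi0 : Fml := conj [
  un 7 x, un 4 x, shAx k,
  all x (ex y (R x y)),
  ax (and (un 7 x) (R x y)) (un 7 y),
  ax (and (un 6 x) (R x y)) (un 6 y),
  all x (imp (and (un 7 x) (un 0 x)) (un 8 x)),
  ax (and (un 8 x) (and (un 8 y) (E1 x y))) (E2 x y),
  ax (and (un 8 x) (and (un 8 y) (E2 x y))) (E1 x y),
  ax (and (un 9 x) (and (un 9 y) (E1 x y))) (E2 x y),
  conjD s k δ fun q a _ => ax (and (un 8 x) (and (un 8 y) (and (E1 x y) (un (Xs q a) x))))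
    (un (Xs q a) y),
  ex y (and (R x y) (and (un 6 y) (zst k δ q₀))),
  all x (imp (and (un 6 x) (un 2 x)) (un 9 x)),
  conjD s k δ fun q a _ => all x (imp (and (un 6 x) (and (un 0 x) (un (Xs q a) x))) (un (Ls a) x)),
  conjD s k δ fun q a r => ax (and (un 6 x) (and (un 0 x) (and (un (Xs q a) x) (R x y))))
    (un (Ns r.1) y),
  conjF s fun q => ax (and (un (Ns q) x) (and (un 1 x) (R x y))) (un (Ns q) y),
  conjF s fun q => ax (and (un (Ns q) x) (and (un 2 x) (R x y))) (un (Ns q) y),
  conjF s fun q => ax (and (un (Ns q) x) (and (un 3 x) (R x y))) (zst k δ q),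
  conjD s k δ fun q a r => conjF r.2.length fun p => kax s k δ q a r p,
  ax (and (un 10 x) (and (un 0 x) (R x y))) (un 10 y),
  ax (and (un 10 x) (and (un 1 x) (R x y))) (un 10 y),
  all x (imp (and (un 10 x) (un 2 x)) (un 8 x))]

/-- One step of the formula reading the initial word. -/
def pre (c : ℕ) (F : Fml) : Fml :=
  and (un 10 y) (and (un (Ls c) y)
    (all x (imp (R y x) (all y (imp (R x y) (all x (imp (R y x) (all y (imp (R x y) F)))))))))

/-- `y` reads the word `l` and then starts to read the output word of its label. -/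
def rd (l : List ℕ) : Fml := l.foldr (pre) (start s k δ y)

/-- The left hand formula for the initial queue `l`. -/
def phi (l : List ℕ) : Fml := and (phi0 s k δ q₀) (ex y (and (R x y) (rd s k δ l)))

end phi

/-- There is an `R`-path of length `2 * m` from `v` to an element with the letter `c`
(paths of even length). -/
def dia (F : Fml) : Fml := ex x (and (R y x) (ex y (and (R x y) F)))

/-- `y` starts an `R`-path of length `4 * p` to an element carrying the letter `c`. -/
def reach (c : ℕ) : ℕ → Fml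
  | 0 => un (Ls c) y
  | p + 1 => dia (dia (reach c p))

/-- The explicit interpolant. -/
def iota (k N : ℕ) : Fml := disjF N fun p => disjF k fun c => disjF k fun c' =>
  if c = c' then neg taut else
    and (ex y (and (R x y) (reach c p))) (ex y (and (R x y) (reach c' p)))

end Pool.Agent.LibFO2E
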