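import Mathlib
import Pool.Agent.LibQA.Defs

set_option autoImplicit false

/-!
Runs of queue automata and the infinite word `ini v₀ v₁ v₂ ⋯`.
-/

namespace Pool.Agent.LibFO2E

open Pool.Agent.LibQA

/-- `cat ini v j = ini ++ v 0 ++ ⋯ ++ v (j - 1)`. -/
def cat (ini : List ℕ) (v : ℕ → List ℕ) : ℕ → List ℕ
  | 0 => ini
  | j + 1 => cat ini v j ++ v j

section
variable (ini : List ℕ) (v : ℕ → List ℕ)

theorem cat_prefix {i j : ℕ} (h : i ≤ j) : cat ini v i <+: cat ini v j := by
  induction h with
  | refl => exact List.prefix_rfl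
  | step _ ih => exact ih.trans (List.prefix_append _ _)

theorem cat_length (h0 : ini ≠ []) (hv : ∀ j, v j ≠ []) (j : ℕ) : j < (cat ini v j).length := by
  induction j with
  | zero => exact List.length_pos_iff.2 h0
  | succ j ih =>
    rw [cat, List.length_append]
    have := List.length_pos_iff.2 (hv j)
    omega

theorem cat_getD {i j n : ℕ} (h : i ≤ j) (hn : n < (cat ini v i).length) :
    (cat ini v j).getD n 0 = (cat ini v i).getD n 0 := by
  obtain ⟨t, ht⟩ := cat_prefix ini v h
  rw [← ht, List.getD_append _ _ _ _ hn]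

theorem cat_getD' {i j n : ℕ} (hi : n < (cat ini v i).length) (hj : n < (cat ini v j).length) :
    (cat ini v i).getD n 0 = (cat ini v j).getD n 0 := by
  rcases le_total i j with h | h
  · exact (cat_getD ini v h hi).symm
  · exact cat_getD ini v h hj

/-- If the letters read are those of `cat`, then the run does not stop. -/
theorem run_of_agree {δ : ℕ → ℕ → Option (ℕ × List ℕ)} {q a : ℕ → ℕ}
    (h0 : ini ≠ []) (hv : ∀ j, v j ≠ []) (hδ : ∀ j, δ (q j) (a j) = some (q (j + 1), v j))
    (N : ℕ) (hag : ∀ j < N, (cat ini v j).getD j 0 = a j) :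
    QRun δ (q 0, ini) N = some (q N, (cat ini v N).drop N) := by
  induction N with
  | zero => simp [QRun, cat]
  | succ N ih =>
    have hN := cat_length ini v h0 hv N
    rw [QRun, ih fun j hj => hag j (by omega), Option.bind_some, QStep]
    have h1 : (cat ini v N).drop N = a N :: (cat ini v N).drop (N + 1) := by
      rw [List.drop_eq_getElem_cons hN, ← hag N (by omega), List.getD_eq_getElem _ _ hN]
    rw [h1]
    simp only [hδ, Option.map_some, cat, Option.some.injEq, Prod.mk.injEq, true_and]
    rw [List.drop_append_of_le_length (by omega)]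

/-- A run which does not halt gives letters and states. -/
theorem seq_of_not_halts {δ : ℕ → ℕ → Option (ℕ × List ℕ)} {q₀ : ℕ} (s k : ℕ)
    (hfin : QFinite s k δ) (hq₀ : q₀ < s) (h0 : ini ≠ []) (hk : ∀ c ∈ ini, c < k)
    (h : ¬ QHalts δ (q₀, ini)) :
    ∃ (q a : ℕ → ℕ) (v : ℕ → List ℕ), q 0 = q₀ ∧ (∀ j, q j < s ∧ a j < k) ∧
      (∀ j, δ (q j) (a j) = some (q (j + 1), v j)) ∧ (∀ j, v j ≠ []) ∧
      ∀ j, (cat ini v j).getD j 0 = a j := by
  have h1 : ∀ t, ∃ c, QRun δ (q₀, ini) t = some c := by
    intro t
    rcases hc : QRun δ (q₀, ini) t with _ | c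
    · exact absurd ⟨t, hc⟩ h
    · exact ⟨c, rfl⟩
  choose c hc using h1
  have hc0 : c 0 = (q₀, ini) := by
    have := hc 0
    simp only [QRun, Option.some.injEq] at this
    exact this.symm
  have hstep : ∀ t, QStep δ (c t) = some (c (t + 1)) := by
    intro t
    have := hc (t + 1)
    rw [QRun, hc t, Option.bind_some] at this
    exact this
  have hstep' : ∀ t, ∃ a w r, (c t).2 = a :: w ∧ δ (c t).1 a = some r ∧
      c (t + 1) = (r.1, w ++ r.2) := by
    intro t
    have := hstep t
    rcases hw : (c t).2 with _ | ⟨a, w⟩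
    · simp [QStep, hw] at this
    · simp only [QStep, hw] at this
      rcases hr : δ (c t).1 a with _ | r
      · simp [hr] at this
      · simp only [hr, Option.map_some, Option.some.injEq] at this
        exact ⟨a, w, r, rfl, hr, this.symm⟩
  choose a w r h1 h2 h3 using hstep'
  have hb : ∀ t, (c t).1 < s ∧ ∀ x ∈ (c t).2, x < k := by
    intro t
    induction t with
    | zero => rw [hc0]; exact ⟨hq₀, hk⟩
    | succ t ih =>
      have ha : a t < k := ih.2 _ (by rw [h1]; simp)
      obtain ⟨g1, g2, g3⟩ := hfin _ _ _ ih.1 ha (h2 t)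
      rw [h3]
      refine ⟨g1, fun x hx => ?_⟩
      rcases List.mem_append.1 hx with hx | hx
      · exact ih.2 x (by rw [h1]; exact List.mem_cons_of_mem _ hx)
      · exact g3 x hx
  have ha : ∀ t, a t < k := fun t => (hb t).2 _ (by rw [h1]; simp)
  have hv : ∀ t, (r t).2 ≠ [] := fun t => (hfin _ _ _ (hb t).1 (ha t) (h2 t)).2.1
  have hcat : ∀ t, (c t).2 = (cat ini (fun t => (r t).2) t).drop t := by
    intro t
    induction t with
    | zero => rw [hc0]; simp [cat]
    | succ t ih =>
      rw [h3, cat]
      have hl := cat_length ini (fun t => (r t).2) h0 hv t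
      rw [List.drop_append_of_le_length (by omega)]
      have : (cat ini (fun t => (r t).2) t).drop (t + 1) =
          ((cat ini (fun t => (r t).2) t).drop t).tail := by
        rw [List.tail_drop]
      rw [this, ← ih, h1]
      rfl
  refine ⟨fun t => (c t).1, a, fun t => (r t).2, by simp [hc0], fun j => ⟨(hb j).1, ha j⟩, ?_, hv,
    ?_⟩
  · intro j
    rw [h2]
    simp only [h3]
  · intro j
    have hl := cat_length ini (fun t => (r t).2) h0 hv j
    have h4 := hcat j
    rw [h1, List.drop_eq_getElem_cons hl] at h4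
    rw [List.getD_eq_getElem _ _ hl]
    exact (List.cons.inj h4).1.symm

end

end Pool.Agent.LibFO2E
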