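import Mathlib
import Pool.Agent.LibFO2E.Build

set_option autoImplicit false

/-!
The semantic content of the two formulas.
-/

namespace Pool.Agent.LibFO2E

open Fml Var

/-- Content of the phase axioms. -/
structure ShSem (S : Str) (k : ℕ) : Prop where
  p4 : ∀ d e, S.un 4 d → S.bin 2 d e → S.bin 0 d e ∧ S.bin 1 d e ∧ S.un 0 e
  p0 : ∀ d e, S.un 0 d → S.bin 2 d e → S.bin 0 d e ∧ S.un 1 e
  p1 : ∀ d e, S.un 1 d → S.bin 2 d e → S.bin 0 d e ∧ S.un 2 e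
  p2 : ∀ d e, S.un 2 d → S.bin 2 d e → S.bin 1 d e ∧ S.un 3 e
  p3 : ∀ d e, S.un 3 d → S.bin 2 d e → S.bin 1 d e ∧ S.un 0 e
  pl : ∀ c < k, ∀ d, S.un (Ls c) d → S.un 0 d

theorem sat_shAx (S : Str) (k : ℕ) (a b : S.D) : Sat S (shAx k) a b ↔ ShSem S k := by
  simp only [shAx, E1, E2, R, sat_conj, List.mem_cons, List.not_mem_nil, or_false,
    forall_eq_or_imp, forall_eq, sat_ax, sat_and, sat_un, sat_bin, val_x, val_y, sat_conjF,
    sat_all_x, sat_imp]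
  constructor
  · rintro ⟨h1, h2, h3, h4, h5, h6⟩
    exact ⟨fun d e h h' => h1 d e ⟨h, h'⟩, fun d e h h' => h2 d e ⟨h, h'⟩,
      fun d e h h' => h3 d e ⟨h, h'⟩, fun d e h h' => h4 d e ⟨h, h'⟩,
      fun d e h h' => h5 d e ⟨h, h'⟩, h6⟩
  · rintro ⟨h1, h2, h3, h4, h5, h6⟩
    exact ⟨fun d e h => h1 d e h.1 h.2, fun d e h => h2 d e h.1 h.2,
      fun d e h => h3 d e h.1 h.2, fun d e h => h4 d e h.1 h.2,
      fun d e h => h5 d e h.1 h.2, h6⟩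

/-- Content of the negation of the right hand formula. -/
structure NpsiSem (S : Str) (k : ℕ) (a : S.D) : Prop where
  r5 : S.un 5 a
  r4 : S.un 4 a
  sh : ShSem S k
  cl : ∀ d e, S.un 5 d → S.bin 2 d e → S.un 5 e
  u1 : ∀ d e, S.un 5 d → S.un 5 e → S.un 1 d → S.un 1 e → S.bin 0 d e → S.bin 1 d e
  u2 : ∀ d e, S.un 5 d → S.un 5 e → S.un 2 d → S.un 2 e → S.bin 0 d e → S.bin 1 d e
  u3 : ∀ d e, S.un 5 d → S.un 5 e → S.un 3 d → S.un 3 e → S.bin 1 d e → S.bin 0 d e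
  u0 : ∀ d e, S.un 5 d → S.un 5 e → S.un 0 d → S.un 0 e → S.bin 1 d e → S.bin 0 d e
  le : ∀ c < k, ∀ c' < k, ∀ d e, S.un 5 d → S.un 5 e → S.un 0 d → S.un 0 e → S.bin 0 d e →
    S.un (Ls c) d → (c = c' ↔ S.un (Ls c') e)

theorem sat_npsi (S : Str) (k : ℕ) (a b : S.D) : Sat S (npsi k) a b ↔ NpsiSem S k a := by
  simp only [npsi, uniq, E1, E2, R, sat_conj, List.mem_cons, List.not_mem_nil, or_false,
    forall_eq_or_imp, forall_eq, sat_ax, sat_and, sat_un, sat_bin, val_x, val_y, sat_conjF,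
    sat_all_x, sat_imp, sat_shAx]
  constructor
  · rintro ⟨h1, h2, h3, h4, h5, h6, h7, h8, h9⟩
    refine ⟨h1, h2, h3, fun d e h h' => h4 d e ⟨h, h'⟩,
      fun d e i1 i2 i3 i4 i5 => h5 d e ⟨i1, i2, i3, i4, i5⟩,
      fun d e i1 i2 i3 i4 i5 => h6 d e ⟨i1, i2, i3, i4, i5⟩,
      fun d e i1 i2 i3 i4 i5 => h7 d e ⟨i1, i2, i3, i4, i5⟩,
      fun d e i1 i2 i3 i4 i5 => h8 d e ⟨i1, i2, i3, i4, i5⟩, ?_⟩
    intro c hc c' hc' d e i1 i2 i3 i4 i5 i6
    have := h9 c hc c' hc' d e ⟨i1, i2, i3, i4, i5, i6⟩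
    split_ifs at this with hcc
    · exact ⟨fun _ => this, fun _ => hcc⟩
    · exact ⟨fun h => absurd h hcc, fun h => absurd h this⟩
  · rintro ⟨h1, h2, h3, h4, h5, h6, h7, h8, h9⟩
    refine ⟨h1, h2, h3, fun d e h => h4 d e h.1 h.2,
      fun d e ⟨i1, i2, i3, i4, i5⟩ => h5 d e i1 i2 i3 i4 i5,
      fun d e ⟨i1, i2, i3, i4, i5⟩ => h6 d e i1 i2 i3 i4 i5,
      fun d e ⟨i1, i2, i3, i4, i5⟩ => h7 d e i1 i2 i3 i4 i5,
      fun d e ⟨i1, i2, i3, i4, i5⟩ => h8 d e i1 i2 i3 i4 i5, ?_⟩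
    rintro c hc c' hc' d e ⟨i1, i2, i3, i4, i5, i6⟩
    have := h9 c hc c' hc' d e i1 i2 i3 i4 i5 i6
    split_ifs with hcc
    · exact this.1 hcc
    · exact fun h => hcc (this.2 h)

section phi
variable (S : Str) (s k : ℕ) (δ : ℕ → ℕ → Option (ℕ × List ℕ)) (q₀ : ℕ)

theorem sat_zst (q : ℕ) (a b : S.D) :
    Sat S (zst k δ q) a b ↔ ∃ c < k, (δ q c).isSome ∧ S.un (Xs q c) b := by
  simp only [zst, sat_disjF]
  refine exists_congr fun c => and_congr_right fun _ => ?_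
  split_ifs with h
  · simp [h]
  · simp only [sat_neg, sat_taut, not_true_eq_false, false_iff]
    tauto

/-- `e` starts to read the output word of its label. -/
def Starts (e : S.D) : Prop :=
  ∀ q < s, ∀ c < k, ∀ r, δ q c = some r → S.un (Xs q c) e → S.un (Ks q c 0) e

theorem sat_start_y (a b : S.D) : Sat S (start s k δ y) a b ↔ Starts S s k δ b := by
  simp only [start, sat_conjD, sat_imp, sat_un, val_y]; rfl

/-- Content of `kax`. -/
structure KSem (q a : ℕ) (r : ℕ × List ℕ) (p : ℕ) : Prop where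
  l : ∀ d, S.un (Ks q a p) d → S.un 0 d → S.un (Ls (r.2.getD p 0)) d
  c0 : ∀ d e, S.un (Ks q a p) d → S.un 0 d → S.bin 2 d e → S.un (Ks q a p) e
  c1 : ∀ d e, S.un (Ks q a p) d → S.un 1 d → S.bin 2 d e → S.un (Ks q a p) e
  c2 : ∀ d e, S.un (Ks q a p) d → S.un 2 d → S.bin 2 d e → S.un (Ks q a p) e
  m : ∀ d, S.un (Ks q a p) d → S.un 2 d → S.un (if p + 1 < r.2.length then 8 else 9) d
  c3 : ∀ d e, S.un (Ks q a p) d → S.un 3 d → S.bin 2 d e →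
    if p + 1 < r.2.length then S.un (Ks q a (p + 1)) e else Starts S s k δ e

theorem sat_kax (q a : ℕ) (r : ℕ × List ℕ) (p : ℕ) (u v : S.D) :
    Sat S (kax s k δ q a r p) u v ↔ KSem S s k δ q a r p := by
  simp only [kax, R, sat_conj, List.mem_cons, List.not_mem_nil, or_false,
    forall_eq_or_imp, forall_eq, sat_ax, sat_and, sat_un, sat_bin, val_x, val_y,
    sat_all_x, sat_imp, and_imp]
  constructor
  · rintro ⟨h1, h2, h3, h4, h5, h6⟩
    refine ⟨h1, h2, h3, h4, h5, fun d e i1 i2 i3 => ?_⟩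
    have := h6 d e i1 i2 i3
    split_ifs at this ⊢
    · exact this
    · exact (sat_start_y S s k δ d e).1 this
  · rintro ⟨h1, h2, h3, h4, h5, h6⟩
    refine ⟨h1, h2, h3, h4, h5, fun d e i1 i2 i3 => ?_⟩
    have := h6 d e i1 i2 i3
    split_ifs at this ⊢
    · exact this
    · exact (sat_start_y S s k δ d e).2 this

/-- Content of `phi0`. -/
structure PhiSem (a : S.D) : Prop where
  r7 : S.un 7 a
  r4 : S.un 4 a
  sh : ShSem S k
  ser : ∀ d, ∃ e, S.bin 2 d e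
  cl7 : ∀ d e, S.un 7 d → S.bin 2 d e → S.un 7 e
  cl6 : ∀ d e, S.un 6 d → S.bin 2 d e → S.un 6 e
  q : ∀ d, S.un 7 d → S.un 0 d → S.un 8 d
  q1 : ∀ d e, S.un 8 d → S.un 8 e → S.bin 0 d e → S.bin 1 d e
  q2 : ∀ d e, S.un 8 d → S.un 8 e → S.bin 1 d e → S.bin 0 d e
  a1 : ∀ d e, S.un 9 d → S.un 9 e → S.bin 0 d e → S.bin 1 d e
  x : ∀ q < s, ∀ c < k, ∀ r, δ q c = some r → ∀ d e, S.un 8 d → S.un 8 e → S.bin 0 d e →
    S.un (Xs q c) d → S.un (Xs q c) e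
  s6 : ∃ e, S.bin 2 a e ∧ S.un 6 e ∧ ∃ c < k, (δ q₀ c).isSome ∧ S.un (Xs q₀ c) e
  m6 : ∀ d, S.un 6 d → S.un 2 d → S.un 9 d
  l6 : ∀ q < s, ∀ c < k, ∀ r, δ q c = some r → ∀ d, S.un 6 d → S.un 0 d → S.un (Xs q c) d →
    S.un (Ls c) d
  n0 : ∀ q < s, ∀ c < k, ∀ r, δ q c = some r → ∀ d e, S.un 6 d → S.un 0 d → S.un (Xs q c) d →
    S.bin 2 d e → S.un (Ns r.1) e
  n1 : ∀ q < s, ∀ d e, S.un (Ns q) d → S.un 1 d → S.bin 2 d e → S.un (Ns q) e
  n2 : ∀ q < s, ∀ d e, S.un (Ns q) d → S.un 2 d → S.bin 2 d e → S.un (Ns q) e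
  n3 : ∀ q < s, ∀ d e, S.un (Ns q) d → S.un 3 d → S.bin 2 d e →
    ∃ c < k, (δ q c).isSome ∧ S.un (Xs q c) e
  k : ∀ q < s, ∀ c < k, ∀ r, δ q c = some r → ∀ p < r.2.length, KSem S s k δ q c r p
  i0 : ∀ d e, S.un 10 d → S.un 0 d → S.bin 2 d e → S.un 10 e
  i1 : ∀ d e, S.un 10 d → S.un 1 d → S.bin 2 d e → S.un 10 e
  i2 : ∀ d, S.un 10 d → S.un 2 d → S.un 8 d

theorem sat_phi0 (a b : S.D) : Sat S (phi0 s k δ q₀) a b ↔ PhiSem S s k δ q₀ a := by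
  simp only [phi0, E1, E2, R, sat_conj, List.mem_cons, List.not_mem_nil, or_false,
    forall_eq_or_imp, forall_eq, sat_ax, sat_and, sat_un, sat_bin, val_x, val_y, sat_conjF,
    sat_all_x, sat_ex_y, sat_imp, sat_shAx, sat_conjD, sat_zst, sat_kax, and_imp]
  constructor
  · rintro ⟨h1, h2, h3, h4, h5, h6, h7, h8, h9, h10, h11, h12, h13, h14, h15, h16, h17, h18, h19,
      h20, h21, h22⟩
    exact ⟨h1, h2, h3, h4, h5, h6, h7, h8, h9, h10, h11, h12, h13, h14, h15, h16, h17, h18, h19,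
      h20, h21, h22⟩
  · rintro ⟨h1, h2, h3, h4, h5, h6, h7, h8, h9, h10, h11, h12, h13, h14, h15, h16, h17, h18, h19,
      h20, h21, h22⟩
    exact ⟨h1, h2, h3, h4, h5, h6, h7, h8, h9, h10, h11, h12, h13, h14, h15, h16, h17, h18, h19,
      h20, h21, h22⟩

/-- Content of `rd l`. -/
def Rd : List ℕ → S.D → Prop
  | [], e => Starts S s k δ e
  | c :: l, e => S.un 10 e ∧ S.un (Ls c) e ∧ ∀ e1, S.bin 2 e e1 → ∀ e2, S.bin 2 e1 e2 →
      ∀ e3, S.bin 2 e2 e3 → ∀ e4, S.bin 2 e3 e4 → Rd l e4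

theorem sat_rd (l : List ℕ) (a b : S.D) : Sat S (rd s k δ l) a b ↔ Rd S s k δ l b := by
  induction l generalizing a b with
  | nil => exact sat_start_y S s k δ a b
  | cons c l ih =>
    rw [show rd s k δ (c :: l) = pre c (rd s k δ l) from rfl]
    simp only [pre, R, sat_and, sat_un, val_y, sat_all_x, sat_all_y, sat_imp, sat_bin, val_x, ih]
    rfl

theorem sat_phi (l : List ℕ) (a b : S.D) :
    Sat S (phi s k δ q₀ l) a b ↔ PhiSem S s k δ q₀ a ∧ ∃ e, S.bin 2 a e ∧ Rd S s k δ l e := by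
  simp only [phi, R, sat_and, sat_phi0, sat_ex_y, sat_bin, val_x, val_y, sat_rd]

end phi

/-- `R`-paths of length `m`. -/
def Path (S : Str) : ℕ → S.D → S.D → Prop
  | 0, a, b => a = b
  | m + 1, a, b => ∃ d, Path S m a d ∧ S.bin 2 d b

theorem path_front (S : Str) (m : ℕ) (a b : S.D) :
    (∃ d, S.bin 2 a d ∧ Path S m d b) ↔ Path S (m + 1) a b := by
  induction m generalizing b with
  | zero =>
    simp only [Path]
    constructor
    · rintro ⟨d, h, rfl⟩; exact ⟨a, rfl, h⟩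
    · rintro ⟨d, rfl, h⟩; exact ⟨b, h, rfl⟩
  | succ m ih =>
    constructor
    · rintro ⟨d, h, e, h1, h2⟩
      exact ⟨e, (ih e).1 ⟨d, h, h1⟩, h2⟩
    · rintro ⟨e, h1, h2⟩
      obtain ⟨d, h3, h4⟩ := (ih e).2 h1
      exact ⟨d, h3, e, h4, h2⟩

theorem sat_reach (S : Str) (c p : ℕ) (a b : S.D) :
    Sat S (reach c p) a b ↔ ∃ d, Path S (4 * p) b d ∧ S.un (Ls c) d := by
  induction p generalizing a b with
  | zero =>
    simp only [reach, sat_un, val_y, Nat.mul_zero, Path]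
    constructor
    · intro h; exact ⟨b, rfl, h⟩
    · rintro ⟨d, rfl, h⟩; exact h
  | succ p ih =>
    simp only [reach, dia, R, sat_ex_x, sat_ex_y, sat_and, sat_bin, val_x, val_y, ih]
    constructor
    · rintro ⟨e1, h1, e2, h2, e3, h3, e4, h4, d, h5, h6⟩
      refine ⟨d, ?_, h6⟩
      rw [show 4 * (p + 1) = 4 * p + 1 + 1 + 1 + 1 by ring]
      exact (path_front _ _ _ _).1 ⟨e1, h1, (path_front _ _ _ _).1 ⟨e2, h2,
        (path_front _ _ _ _).1 ⟨e3, h3, (path_front _ _ _ _).1 ⟨e4, h4, h5⟩⟩⟩⟩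
    · rintro ⟨d, h5, h6⟩
      rw [show 4 * (p + 1) = 4 * p + 1 + 1 + 1 + 1 by ring] at h5
      obtain ⟨e1, h1, h5⟩ := (path_front _ _ _ _).2 h5
      obtain ⟨e2, h2, h5⟩ := (path_front _ _ _ _).2 h5
      obtain ⟨e3, h3, h5⟩ := (path_front _ _ _ _).2 h5
      obtain ⟨e4, h4, h5⟩ := (path_front _ _ _ _).2 h5
      exact ⟨e1, h1, e2, h2, e3, h3, e4, h4, d, h5, h6⟩

/-- Content of the interpolant. -/
theorem sat_iota (S : Str) (k N : ℕ) (a b : S.D) :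
    Sat S (iota k N) a b ↔ ∃ p < N, ∃ c < k, ∃ c' < k, c ≠ c' ∧
      (∃ d, Path S (4 * p + 1) a d ∧ S.un (Ls c) d) ∧
      (∃ d, Path S (4 * p + 1) a d ∧ S.un (Ls c') d) := by
  simp only [iota, sat_disjF]
  refine exists_congr fun p => and_congr_right fun _ => exists_congr fun c =>
    and_congr_right fun _ => exists_congr fun c' => and_congr_right fun _ => ?_
  split_ifs with h
  · simp [h]
  · simp only [R, sat_and, sat_ex_y, sat_bin, val_x, val_y, sat_reach, ne_eq, h,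
      not_false_eq_true, true_and]
    refine and_congr ?_ ?_
    · constructor
      · rintro ⟨d, h1, e, h2, h3⟩
        exact ⟨e, (path_front _ _ _ _).1 ⟨d, h1, h2⟩, h3⟩
      · rintro ⟨e, h2, h3⟩
        obtain ⟨d, h1, h2⟩ := (path_front _ _ _ _).2 h2
        exact ⟨d, h1, e, h2, h3⟩
    · constructor
      · rintro ⟨d, h1, e, h2, h3⟩
        exact ⟨e, (path_front _ _ _ _).1 ⟨d, h1, h2⟩, h3⟩
      · rintro ⟨e, h2, h3⟩
        obtain ⟨d, h1, h2⟩ := (path_front _ _ _ _).2 h2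
        exact ⟨d, h1, e, h2, h3⟩

end Pool.Agent.LibFO2E
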