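import Mathlib
import Pool.Agent.LibFO2E.Sem
import Pool.Agent.LibFO2E.Cat

set_option autoImplicit false

/-!
If the queue automaton halts then there is an interpolant.
-/

namespace Pool.Agent.LibFO2E

open Pool.Agent.LibQA

/-- same point -/
def SP (S : Str) (d e : S.D) : Prop := S.bin 0 d e ∧ S.bin 1 d e

theorem SP.symm {S : Str} {d e : S.D} (h : SP S d e) : SP S e d :=
  ⟨S.equiv₁.symm h.1, S.equiv₂.symm h.2⟩

theorem SP.trans {S : Str} {d e f : S.D} (h : SP S d e) (h' : SP S e f) : SP S d f :=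
  ⟨S.equiv₁.trans h.1 h'.1, S.equiv₂.trans h.2 h'.2⟩

theorem SP.rfl {S : Str} {d : S.D} : SP S d d := ⟨S.equiv₁.refl d, S.equiv₂.refl d⟩

theorem psi_side {S : Str} {k : ℕ} {a : S.D} (h : NpsiSem S k a) (p : ℕ) :
    ∀ d e, Path S (4 * p + 1) a d → Path S (4 * p + 1) a e →
      S.un 5 d ∧ S.un 5 e ∧ S.un 0 d ∧ S.un 0 e ∧ SP S d e := by
  induction p with
  | zero =>
    rintro d e ⟨_, rfl, hd⟩ ⟨_, rfl, he⟩
    obtain ⟨d1, d2, d3⟩ := h.sh.p4 _ _ h.r4 hd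
    obtain ⟨e1, e2, e3⟩ := h.sh.p4 _ _ h.r4 he
    exact ⟨h.cl _ _ h.r5 hd, h.cl _ _ h.r5 he, d3, e3,
      SP.trans (SP.symm ⟨d1, d2⟩) ⟨e1, e2⟩⟩
  | succ p ih =>
    rintro d e hd he
    rw [show 4 * (p + 1) + 1 = 4 * p + 1 + 1 + 1 + 1 + 1 by ring] at hd he
    obtain ⟨d3, ⟨d2, ⟨d1, ⟨d0, hd0, hd1⟩, hd2⟩, hd3⟩, hd4⟩ := hd
    obtain ⟨e3, ⟨e2, ⟨e1, ⟨e0, he0, he1⟩, he2⟩, he3⟩, he4⟩ := he
    obtain ⟨m0, m0', t0, t0', s0⟩ := ih d0 e0 hd0 he0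
    have m1 := h.cl _ _ m0 hd1
    have m2 := h.cl _ _ m1 hd2
    have m3 := h.cl _ _ m2 hd3
    have m4 := h.cl _ _ m3 hd4
    have m1' := h.cl _ _ m0' he1
    have m2' := h.cl _ _ m1' he2
    have m3' := h.cl _ _ m2' he3
    have m4' := h.cl _ _ m3' he4
    obtain ⟨r1, t1⟩ := h.sh.p0 _ _ t0 hd1
    obtain ⟨r1', t1'⟩ := h.sh.p0 _ _ t0' he1
    obtain ⟨r2, t2⟩ := h.sh.p1 _ _ t1 hd2
    obtain ⟨r2', t2'⟩ := h.sh.p1 _ _ t1' he2
    obtain ⟨r3, t3⟩ := h.sh.p2 _ _ t2 hd3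
    obtain ⟨r3', t3'⟩ := h.sh.p2 _ _ t2' he3
    obtain ⟨r4, t4⟩ := h.sh.p3 _ _ t3 hd4
    obtain ⟨r4', t4'⟩ := h.sh.p3 _ _ t3' he4
    have a1 : S.bin 0 d1 e1 := S.equiv₁.trans (S.equiv₁.symm r1) (S.equiv₁.trans s0.1 r1')
    have a2 : S.bin 0 d2 e2 := S.equiv₁.trans (S.equiv₁.symm r2) (S.equiv₁.trans a1 r2')
    have b2 := h.u2 _ _ m2 m2' t2 t2' a2
    have b3 : S.bin 1 d3 e3 := S.equiv₂.trans (S.equiv₂.symm r3) (S.equiv₂.trans b2 r3')
    have b4 : S.bin 1 d e := S.equiv₂.trans (S.equiv₂.symm r4) (S.equiv₂.trans b3 r4')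
    exact ⟨m4, m4', t4, t4', h.u0 _ _ m4 m4' t4 t4' b4, b4⟩

theorem iota_entails_psi (k N : ℕ) : Entails (iota k N) (psi k) := by
  intro S a b h1
  rw [psi, sat_neg, sat_npsi]
  intro h2
  rw [sat_iota] at h1
  obtain ⟨p, _, c, hc, c', hc', hne, ⟨d, hd, hd'⟩, ⟨e, he, he'⟩⟩ := h1
  obtain ⟨m, m', t, t', s1, -⟩ := psi_side h2 p d e hd he
  exact hne ((h2.le c hc c' hc' d e m m' t t' s1 hd').2 he')

section phi
variable {S : Str} {s k : ℕ} {δ : ℕ → ℕ → Option (ℕ × List ℕ)} {q₀ : ℕ} {a : S.D}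

/-- `W`, `T₀`. -/
def WT (S : Str) (d : S.D) : Prop := S.un 7 d ∧ S.un 0 d

theorem four (h : PhiSem S s k δ q₀ a) {g : S.D → S.D} (hg : ∀ d, S.bin 2 d (g d)) {d : S.D}
    (hd : WT S d) : S.un 1 (g d) ∧ S.un 2 (g (g d)) ∧ S.un 3 (g (g (g d))) ∧
      WT S (g (g (g (g d)))) ∧ S.bin 0 d (g (g d)) ∧ S.bin 1 (g (g d)) (g (g (g (g d)))) := by
  obtain ⟨r1, t1⟩ := h.sh.p0 _ _ hd.2 (hg d)
  obtain ⟨r2, t2⟩ := h.sh.p1 _ _ t1 (hg _)
  obtain ⟨r3, t3⟩ := h.sh.p2 _ _ t2 (hg _)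
  obtain ⟨r4, t4⟩ := h.sh.p3 _ _ t3 (hg _)
  have m1 := h.cl7 _ _ hd.1 (hg _)
  have m2 := h.cl7 _ _ m1 (hg _)
  have m3 := h.cl7 _ _ m2 (hg _)
  have m4 := h.cl7 _ _ m3 (hg _)
  exact ⟨t1, t2, t3, ⟨m4, t4⟩, S.equiv₁.trans r1 r2, S.equiv₂.trans r3 r4⟩

/-- Staying. -/
theorem stay (h : PhiSem S s k δ q₀ a) {g : S.D → S.D} (hg : ∀ d, S.bin 2 d (g d)) {d : S.D}
    (hd : WT S d) (hQ : S.un 8 (g (g d))) : SP S d (g (g (g (g d)))) := by
  obtain ⟨-, -, -, h4, e1, e2⟩ := four h hg hd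
  have q0 := h.q _ hd.1 hd.2
  have q4 := h.q _ h4.1 h4.2
  have a1 := h.q1 _ _ q0 hQ e1
  exact SP.trans ⟨e1, a1⟩ ⟨h.q2 _ _ hQ q4 e2, e2⟩

/-- Moving. -/
theorem move (h : PhiSem S s k δ q₀ a) {g : S.D → S.D} (hg : ∀ d, S.bin 2 d (g d)) {d e : S.D}
    (hd : WT S d) (he : WT S e) (hde : SP S d e) (hdA : S.un 9 (g (g d)))
    (heA : S.un 9 (g (g e))) : SP S (g (g (g (g d)))) (g (g (g (g e)))) := by
  obtain ⟨-, -, -, h4, e1, e2⟩ := four h hg hd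
  obtain ⟨-, -, -, h4', e1', e2'⟩ := four h hg he
  have q4 := h.q _ h4.1 h4.2
  have q4' := h.q _ h4'.1 h4'.2
  have a0 : S.bin 0 (g (g d)) (g (g e)) :=
    S.equiv₁.trans (S.equiv₁.symm e1) (S.equiv₁.trans hde.1 e1')
  have a1 := h.a1 _ _ hdA heA a0
  have a2 : S.bin 1 (g (g (g (g d)))) (g (g (g (g e)))) :=
    S.equiv₂.trans (S.equiv₂.symm e2) (S.equiv₂.trans a1 e2')
  exact ⟨h.q2 _ _ q4 q4' a2, a2⟩

/-- The first track. -/
theorem track6 (h : PhiSem S s k δ q₀ a) {g : S.D → S.D} (hg : ∀ d, S.bin 2 d (g d))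
    {d : S.D} (hd : WT S d) (h6 : S.un 6 d) {q c : ℕ} {r : ℕ × List ℕ} (hq : q < s) (hc : c < k)
    (hr : δ q c = some r) (hr' : r.1 < s) (hX : S.un (Xs q c) d) :
    S.un (Ls c) d ∧ S.un 6 (g (g (g (g d)))) ∧ S.un 9 (g (g d)) ∧
      ∃ c' < k, (δ r.1 c').isSome ∧ S.un (Xs r.1 c') (g (g (g (g d)))) := by
  obtain ⟨t1, t2, t3, h4, -, -⟩ := four h hg hd
  have m1 := h.cl6 _ _ h6 (hg _)
  have m2 := h.cl6 _ _ m1 (hg _)
  have m3 := h.cl6 _ _ m2 (hg _)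
  have m4 := h.cl6 _ _ m3 (hg _)
  have n1 := h.n0 q hq c hc r hr _ _ h6 hd.2 hX (hg _)
  have n2 := h.n1 r.1 hr' _ _ n1 t1 (hg _)
  have n3 := h.n2 r.1 hr' _ _ n2 t2 (hg _)
  exact ⟨h.l6 q hq c hc r hr _ h6 hd.2 hX, m4, h.m6 _ m2 t2, h.n3 r.1 hr' _ _ n3 t3 (hg _)⟩

/-- The second track. -/
theorem track7 (h : PhiSem S s k δ q₀ a) {g : S.D → S.D} (hg : ∀ d, S.bin 2 d (g d))
    {d : S.D} (hd : WT S d) {q c p : ℕ} {r : ℕ × List ℕ} (hq : q < s) (hc : c < k)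
    (hr : δ q c = some r) (hp : p < r.2.length) (hK : S.un (Ks q c p) d) :
    S.un (Ls (r.2.getD p 0)) d ∧
      (p + 1 < r.2.length → S.un 8 (g (g d)) ∧ S.un (Ks q c (p + 1)) (g (g (g (g d))))) ∧
      (¬ p + 1 < r.2.length → S.un 9 (g (g d)) ∧ Starts S s k δ (g (g (g (g d))))) := by
  obtain ⟨t1, t2, t3, h4, -, -⟩ := four h hg hd
  have hk := h.k q hq c hc r hr p hp
  have k1 := hk.c0 _ _ hK hd.2 (hg _)
  have k2 := hk.c1 _ _ k1 t1 (hg _)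
  have k3 := hk.c2 _ _ k2 t2 (hg _)
  have k4 := hk.c3 _ _ k3 t3 (hg _)
  have hm := hk.m _ k2 t2
  refine ⟨hk.l _ hK hd.2, fun hlt => ?_, fun hlt => ?_⟩
  · rw [if_pos hlt] at k4 hm
    exact ⟨hm, k4⟩
  · rw [if_neg hlt] at k4 hm
    exact ⟨hm, k4⟩

theorem exists_seq {β : Type} (G : ℕ → β → Prop) (T : β → β → Prop) (c0 : β) (h0 : G 0 c0)
    (hs : ∀ n c, G n c → ∃ c', G (n + 1) c' ∧ T c c') :
    ∃ f : ℕ → β, f 0 = c0 ∧ ∀ n, G n (f n) ∧ T (f n) (f (n + 1)) := by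
  classical
  choose! F hF using hs
  let f : ℕ → β := fun n => Nat.rec c0 (fun n c => F n c) n
  have hf : ∀ n, G n (f n) := by
    intro n
    induction n with
    | zero => exact h0
    | succ n ih => exact (hF n (f n) ih).1
  exact ⟨f, rfl, fun n => ⟨hf n, (hF n (f n) (hf n)).2⟩⟩

theorem path_iter (S : Str) {g : S.D → S.D} (hg : ∀ d, S.bin 2 d (g d)) {a e : S.D}
    (h : S.bin 2 a e) (m : ℕ) : Path S (m + 1) a (g^[m] e) := by
  induction m with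
  | zero => exact ⟨a, rfl, h⟩
  | succ m ih => exact ⟨_, ih, by rw [Function.iterate_succ_apply']; exact hg _⟩

theorem iter4 {β : Type} (g : β → β) (e : β) (n : ℕ) :
    g^[4 * (n + 1)] e = g (g (g (g (g^[4 * n] e)))) := by
  rw [show 4 * (n + 1) = 4 * n + 1 + 1 + 1 + 1 by ring]
  simp only [Function.iterate_succ_apply']

theorem phi_side (hfin : QFinite s k δ) (hq₀ : q₀ < s) {l : List ℕ} (h0 : l ≠ [])
    (hl : ∀ c ∈ l, c < k) (h : PhiSem S s k δ q₀ a) (hV : ∃ e, S.bin 2 a e ∧ Rd S s k δ l e)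
    {N : ℕ} (hN : QRun δ (q₀, l) N = none) :
    ∃ p < N, ∃ c < k, ∃ c' < k, c ≠ c' ∧
      (∃ d, Path S (4 * p + 1) a d ∧ S.un (Ls c) d) ∧
      (∃ d, Path S (4 * p + 1) a d ∧ S.un (Ls c') d) := by
  classical
  obtain ⟨f0, hf0, hf0'⟩ := hV
  choose g hg using h.ser
  obtain ⟨e0, he0, he6, c0, hc0, hc0', hX0⟩ := h.s6
  obtain ⟨ge1, ge2, ge3⟩ := h.sh.p4 _ _ h.r4 he0
  obtain ⟨gf1, gf2, gf3⟩ := h.sh.p4 _ _ h.r4 hf0
  have hWe : WT S e0 := ⟨h.cl7 _ _ h.r7 he0, ge3⟩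
  have hWf : WT S f0 := ⟨h.cl7 _ _ h.r7 hf0, gf3⟩
  have hSP0 : SP S e0 f0 := SP.trans (SP.symm ⟨ge1, ge2⟩) ⟨gf1, gf2⟩
  -- the first track
  obtain ⟨lab, hlab0, hlab⟩ := exists_seq (β := ℕ × ℕ)
    (fun j c => c.1 < s ∧ c.2 < k ∧ (δ c.1 c.2).isSome ∧ S.un (Xs c.1 c.2) (g^[4 * j] e0) ∧
      WT S (g^[4 * j] e0) ∧ S.un 6 (g^[4 * j] e0))
    (fun c c' => ∀ r, δ c.1 c.2 = some r → c'.1 = r.1) (q₀, c0)
    ⟨hq₀, hc0, hc0', hX0, hWe, he6⟩ (by
      rintro n ⟨q, c⟩ ⟨hq, hc, hs, hX, hW, h6⟩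
      obtain ⟨r, hr⟩ := Option.isSome_iff_exists.1 hs
      have hr' := (hfin _ _ _ hq hc hr).1
      obtain ⟨-, h6', -, c', hc', hs', hX'⟩ := track6 h hg hW h6 hq hc hr hr' hX
      refine ⟨(r.1, c'), ⟨hr', hc', hs', ?_, ?_, ?_⟩, ?_⟩
      · rw [iter4]; exact hX'
      · rw [iter4]; exact (four h hg hW).2.2.2.1
      · rw [iter4]; exact h6'
      · intro r' hr'
        simp only at hr'
        rw [hr] at hr'
        cases hr'
        rfl)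
  have hr : ∀ j, ∃ r, δ (lab j).1 (lab j).2 = some r := fun j =>
    Option.isSome_iff_exists.1 (hlab j).1.2.2.1
  choose r hr using hr
  have hnext : ∀ j, (lab (j + 1)).1 = (r j).1 := fun j => (hlab j).2 _ (hr j)
  have hv : ∀ j, (r j).2 ≠ [] := fun j => (hfin _ _ _ (hlab j).1.1 (hlab j).1.2.1 (hr j)).2.1
  have hvk : ∀ j, ∀ c ∈ (r j).2, c < k := fun j =>
    (hfin _ _ _ (hlab j).1.1 (hlab j).1.2.1 (hr j)).2.2
  have hrs : ∀ j, (r j).1 < s := fun j => (hfin _ _ _ (hlab j).1.1 (hlab j).1.2.1 (hr j)).1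
  set v : ℕ → List ℕ := fun j => (r j).2 with hvdef
  -- second track, initial word
  have hV1 : ∀ i ≤ l.length, Rd S s k δ (l.drop i) (g^[4 * i] f0) ∧ WT S (g^[4 * i] f0) ∧
      SP S e0 (g^[4 * i] f0) := by
    intro i
    induction i with
    | zero => intro _; exact ⟨hf0', hWf, hSP0⟩
    | succ i ih =>
      intro hi
      obtain ⟨a1, a2, a3⟩ := ih (by omega)
      rw [List.drop_eq_getElem_cons (by omega : i < l.length)] at a1
      obtain ⟨b1, b2, b3⟩ := a1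
      have b4 := b3 _ (hg _) _ (hg _) _ (hg _) _ (hg _)
      obtain ⟨t1, t2, t3, h4, -, -⟩ := four h hg a2
      have i1 := h.i0 _ _ b1 a2.2 (hg _)
      have i2 := h.i1 _ _ i1 t1 (hg _)
      have i3 := h.i2 _ i2 t2
      rw [iter4]
      exact ⟨b4, h4, a3.trans (stay h hg a2 i3)⟩
  have hV1' : ∀ i < l.length, S.un (Ls (l.getD i 0)) (g^[4 * i] f0) := by
    intro i hi
    obtain ⟨a1, -, -⟩ := hV1 i (by omega)
    rw [List.drop_eq_getElem_cons hi] at a1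
    rw [List.getD_eq_getElem _ _ hi]
    exact a1.2.1
  -- second track, blocks
  have hblock : ∀ j n, WT S (g^[4 * n] f0) → SP S (g^[4 * j] e0) (g^[4 * n] f0) →
      Starts S s k δ (g^[4 * n] f0) → ∀ p, p < (v j).length →
        (S.un (Ks (lab j).1 (lab j).2 p) (g^[4 * (n + p)] f0) ∧ WT S (g^[4 * (n + p)] f0) ∧
          SP S (g^[4 * j] e0) (g^[4 * (n + p)] f0)) := by
    intro j n hW hS hst p
    obtain ⟨⟨lq, lc, -, lX, lW, -⟩, -⟩ := hlab j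
    induction p with
    | zero =>
      intro hp
      refine ⟨hst _ lq _ lc _ (hr j) ?_, hW, hS⟩
      exact h.x _ lq _ lc _ (hr j) _ _ (h.q _ lW.1 lW.2) (h.q _ hW.1 hW.2) hS.1 lX
    | succ p ih =>
      intro hp
      obtain ⟨k1, k2, k3⟩ := ih (by omega)
      obtain ⟨-, m1, -⟩ := track7 h hg k2 lq lc (hr j) (lt_of_le_of_lt (Nat.le_succ p) hp) k1
      obtain ⟨m2, m3⟩ := m1 hp
      rw [show n + (p + 1) = (n + p) + 1 by ring, iter4]
      exact ⟨m3, (four h hg k2).2.2.2.1, k3.trans (stay h hg k2 m2)⟩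
  have hstart : ∀ j, WT S (g^[4 * (cat l v j).length] f0) ∧
      SP S (g^[4 * j] e0) (g^[4 * (cat l v j).length] f0) ∧
      Starts S s k δ (g^[4 * (cat l v j).length] f0) := by
    intro j
    induction j with
    | zero =>
      obtain ⟨a1, a2, a3⟩ := hV1 l.length le_rfl
      rw [List.drop_length] at a1
      exact ⟨a2, a3, a1⟩
    | succ j ih =>
      obtain ⟨a1, a2, a3⟩ := ih
      obtain ⟨⟨lq, lc, -, lX, lW, l6⟩, -⟩ := hlab j
      have hpos := List.length_pos_iff.2 (hv j)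
      obtain ⟨k1, k2, k3⟩ := hblock j _ a1 a2 a3 ((v j).length - 1) (by simp only [hvdef]; omega)
      obtain ⟨-, -, m1⟩ := track7 h hg k2 lq lc (hr j) (by simp only [hvdef]; omega) k1
      obtain ⟨m2, m3⟩ := m1 (by simp only [hvdef]; omega)
      have hlen : (cat l v (j + 1)).length = (cat l v j).length + ((v j).length - 1) + 1 := by
        rw [cat, List.length_append]
        simp only [hvdef]
        omega
      rw [hlen, iter4, iter4]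
      obtain ⟨-, -, h9, -⟩ := track6 h hg lW l6 lq lc (hr j) (hrs j) lX
      exact ⟨(four h hg k2).2.2.2.1, move h hg lW k2 k3 h9 m2, m3⟩
  have hlet : ∀ j i, i < (cat l v j).length → S.un (Ls ((cat l v j).getD i 0)) (g^[4 * i] f0) := by
    intro j
    induction j with
    | zero => exact hV1'
    | succ j ih =>
      intro i hi
      rcases lt_or_ge i (cat l v j).length with hlt | hge
      · rw [cat, List.getD_append _ _ _ _ hlt]
        exact ih i hlt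
      · obtain ⟨p, rfl⟩ := Nat.exists_eq_add_of_le hge
        have hp : p < (v j).length := by
          rw [cat, List.length_append] at hi; omega
        obtain ⟨a1, a2, a3⟩ := hstart j
        obtain ⟨⟨lq, lc, -, lX, lW, l6⟩, -⟩ := hlab j
        obtain ⟨k1, k2, k3⟩ := hblock j _ a1 a2 a3 p hp
        obtain ⟨m1, -, -⟩ := track7 h hg k2 lq lc (hr j) hp k1
        rw [cat, List.getD_append_right _ _ _ _ hge, Nat.add_sub_cancel_left]
        exact m1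
  have hcatk : ∀ j, ∀ c ∈ cat l v j, c < k := by
    intro j
    induction j with
    | zero => exact hl
    | succ j ih =>
      intro c hc
      rcases List.mem_append.1 hc with hc | hc
      · exact ih c hc
      · exact hvk j c hc
  by_contra hcon
  have hag : ∀ j < N, (cat l v j).getD j 0 = (lab j).2 := by
    intro j hj
    by_contra hne
    apply hcon
    obtain ⟨⟨lq, lc, -, lX, lW, l6⟩, -⟩ := hlab j
    obtain ⟨hL, -, -, -⟩ := track6 h hg lW l6 lq lc (hr j) (hrs j) lX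
    have hj' := cat_length l v h0 hv j
    refine ⟨j, hj, _, ?_, _, lc, hne, ⟨_, path_iter S hg hf0 _, hlet j j hj'⟩,
      ⟨_, path_iter S hg he0 _, hL⟩⟩
    rw [List.getD_eq_getElem _ _ hj']
    exact hcatk j _ (List.getElem_mem _)
  have := run_of_agree l v (δ := δ) (q := fun j => (lab j).1) (a := fun j => (lab j).2) h0 hv
    (fun j => by rw [hr, hnext j]) N hag
  rw [hlab0] at this
  rw [this] at hN
  exact absurd hN (by simp)

end phi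

end Pool.Agent.LibFO2E
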