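import Mathlib
import Pool.Agent.LibFO2E.Sem

set_option autoImplicit false

/-!
The noise-rich models and the bisimulation between them.
-/

namespace Pool.Agent.LibFO2E

inductive Ph where
  | p0 | p1 | p2 | p3

inductive Typ where
  | rt
  | tk (p : Ph) (k : ℕ)

open Ph Typ Fml Var

def nxt : Typ → Typ
  | rt => tk p0 0
  | tk p0 k => tk p1 k
  | tk p1 k => tk p2 k
  | tk p2 k => tk p3 k
  | tk p3 k => tk p0 (k + 1)

def rk : Typ → ℕ
  | rt => 0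
  | tk p0 k => 4 * k + 1
  | tk p1 k => 4 * k + 2
  | tk p2 k => 4 * k + 3
  | tk p3 k => 4 * k + 4

theorem rk_nxt (t : Typ) : rk (nxt t) = rk t + 1 := by
  rcases t with _ | ⟨p, k⟩
  · rfl
  · cases p <;> simp only [rk, nxt] <;> omega

theorem rk_inj {t t' : Typ} (h : rk t = rk t') : t = t' := by
  rcases t with _ | ⟨p, k⟩ <;> rcases t' with _ | ⟨p', k'⟩
  · rfl
  · exfalso; cases p' <;> simp only [rk] at h <;> omega
  · exfalso; cases p <;> simp only [rk] at h <;> omega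
  · cases p <;> cases p' <;> simp only [rk] at h <;>
      first
      | (exfalso; omega)
      | (have : k = k' := by omega
         rw [this])

theorem nxt_inj {t t' : Typ} (h : nxt t = nxt t') : t = t' := by
  apply rk_inj
  have h1 := rk_nxt t
  have h2 := rk_nxt t'
  rw [h] at h1
  omega

def Pat : Typ → ℕ × ℕ → ℕ × ℕ → Prop
  | rt, u, v => u.1 = v.1 ∧ u.2 = v.2
  | tk p0 _, u, v => u.1 = v.1 ∧ u.2 ≠ v.2
  | tk p1 _, u, v => u.1 = v.1 ∧ u.2 ≠ v.2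
  | tk p2 _, u, v => u.1 ≠ v.1 ∧ u.2 = v.2
  | tk p3 _, u, v => u.1 ≠ v.1 ∧ u.2 = v.2

theorem Pat.same {t : Typ} {u v u' v' : ℕ × ℕ} (h : Pat t u v) (h' : Pat t u' v') :
    (u.1 = v.1 ↔ u'.1 = v'.1) ∧ (u.2 = v.2 ↔ u'.2 = v'.2) := by
  rcases t with _ | ⟨p, k⟩
  · exact ⟨⟨fun _ => h'.1, fun _ => h.1⟩, ⟨fun _ => h'.2, fun _ => h.2⟩⟩
  · cases p
    · exact ⟨⟨fun _ => h'.1, fun _ => h.1⟩, ⟨fun g => absurd g h.2, fun g => absurd g h'.2⟩⟩
    · exact ⟨⟨fun _ => h'.1, fun _ => h.1⟩, ⟨fun g => absurd g h.2, fun g => absurd g h'.2⟩⟩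
    · exact ⟨⟨fun g => absurd g h.1, fun g => absurd g h'.1⟩, ⟨fun _ => h'.2, fun _ => h.2⟩⟩
    · exact ⟨⟨fun g => absurd g h.1, fun g => absurd g h'.1⟩, ⟨fun _ => h'.2, fun _ => h.2⟩⟩

theorem Pat.ex (t : Typ) (u : ℕ × ℕ) : ∃ v, Pat t u v := by
  rcases t with _ | ⟨p, k⟩
  · exact ⟨u, rfl, rfl⟩
  · cases p
    · exact ⟨(u.1, u.2 + 1), rfl, by simp⟩
    · exact ⟨(u.1, u.2 + 1), rfl, by simp⟩
    · exact ⟨(u.1 + 1, u.2), by simp, rfl⟩
    · exact ⟨(u.1 + 1, u.2), by simp, rfl⟩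

theorem Pat.ex' (t : Typ) (v : ℕ × ℕ) : ∃ u, Pat t u v := by
  rcases t with _ | ⟨p, k⟩
  · exact ⟨v, rfl, rfl⟩
  · cases p
    · exact ⟨(v.1, v.2 + 1), rfl, by simp⟩
    · exact ⟨(v.1, v.2 + 1), rfl, by simp⟩
    · exact ⟨(v.1 + 1, v.2), by simp, rfl⟩
    · exact ⟨(v.1 + 1, v.2), by simp, rfl⟩

/-- Elements: noise, the root, and the tracks. -/
inductive El (ι : Type) where
  | noise (u : ℕ × ℕ) (t : Typ) (s : Bool)
  | root
  | trk (i : ι) (p : Ph) (k : ℕ)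

open El

variable {ι ι' : Type}

def El.typ : El ι → Typ
  | noise _ t _ => t
  | root => rt
  | trk _ p k => tk p k

def tpos (b : ℕ → ℕ) : Ph → ℕ → ℕ × ℕ
  | p0, k => (b k, b k)
  | p1, k => (b k, b k + 2)
  | p2, k => (b k, b (k + 1))
  | p3, k => (b k + 2, b (k + 1))

def El.pos (b : ι → ℕ → ℕ) : El ι → ℕ × ℕ
  | noise u _ _ => u
  | root => (0, 0)
  | trk i p k => tpos (b i) p k

def El.rel : El ι → El ι → Prop
  | noise u t s, noise u' t' s' => s = s' ∧ t' = nxt t ∧ Pat t u u'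
  | root, trk _ p k => tk p k = nxt rt
  | trk i p k, trk j p' k' => i = j ∧ tk p' k' = nxt (tk p k)
  | _, _ => False

/-- Admissible block functions. -/
def Good (b : ι → ℕ → ℕ) : Prop :=
  (∀ i, b i 0 = 0) ∧ ∀ i k, b i (k + 1) = b i k ∨ b i (k + 1) = b i k + 1

theorem rel_spec {b : ι → ℕ → ℕ} (hb : Good b) {d e : El ι} (h : d.rel e) :
    e.typ = nxt d.typ ∧ Pat d.typ (d.pos b) (e.pos b) := by
  rcases d with ⟨u, t, s⟩ | _ | ⟨i, p, k⟩ <;> rcases e with ⟨u', t', s'⟩ | _ | ⟨j, p', k'⟩ <;>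
    simp only [El.rel] at h
  · exact ⟨h.2.1, h.2.2⟩
  · simp only [nxt, tk.injEq] at h
    obtain ⟨rfl, rfl⟩ := h
    refine ⟨rfl, ?_⟩
    simp only [El.typ, Pat, El.pos, tpos, hb.1 j, and_self]
  · obtain ⟨rfl, h⟩ := h
    have hk := hb.2 i k
    cases p <;> simp only [nxt, tk.injEq] at h <;> obtain ⟨rfl, rfl⟩ := h <;> refine ⟨rfl, ?_⟩
    · exact ⟨rfl, show b i k' ≠ b i k' + 2 by omega⟩
    · exact ⟨rfl, show b i k' + 2 ≠ b i (k' + 1) by omega⟩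
    · exact ⟨show b i k' ≠ b i k' + 2 by omega, rfl⟩
    · exact ⟨show b i k + 2 ≠ b i (k + 1) by omega, rfl⟩

theorem succ_ex [Nonempty ι] (d : El ι) : ∃ e, d.rel e := by
  rcases d with ⟨u, t, s⟩ | _ | ⟨i, p, k⟩
  · obtain ⟨v, hv⟩ := Pat.ex t u
    exact ⟨noise v (nxt t) s, rfl, rfl, hv⟩
  · exact ⟨trk (Classical.arbitrary ι) p0 0, rfl⟩
  · cases p
    · exact ⟨trk i p1 k, rfl, rfl⟩
    · exact ⟨trk i p2 k, rfl, rfl⟩
    · exact ⟨trk i p3 k, rfl, rfl⟩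
    · exact ⟨trk i p0 (k + 1), rfl, rfl⟩

theorem pred_ex (d : El ι) (t : Typ) (h : d.typ = nxt t) : ∃ e : El ι, e.rel d ∧ e.typ = t := by
  rcases d with ⟨u, t', s⟩ | _ | ⟨i, p, k⟩
  · simp only [El.typ] at h
    obtain ⟨v, hv⟩ := Pat.ex' t u
    exact ⟨noise v t s, ⟨rfl, h, hv⟩, rfl⟩
  · exfalso
    have := rk_nxt t
    rw [← h] at this
    simp [El.typ, rk] at this
  · simp only [El.typ] at h
    rcases t with _ | ⟨p', k'⟩
    · exact ⟨root, h, rfl⟩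
    · exact ⟨trk i p' k', ⟨rfl, h⟩, rfl⟩

/-- The same relations hold between `d, e` and between `d', e'`. -/
def Lk (b : ι → ℕ → ℕ) (b' : ι' → ℕ → ℕ) (d e : El ι) (d' e' : El ι') : Prop :=
  ((d.pos b).1 = (e.pos b).1 ↔ (d'.pos b').1 = (e'.pos b').1) ∧
  ((d.pos b).2 = (e.pos b).2 ↔ (d'.pos b').2 = (e'.pos b').2) ∧
  (d.rel e ↔ d'.rel e') ∧ (e.rel d ↔ e'.rel d')

theorem Lk.symm {b : ι → ℕ → ℕ} {b' : ι' → ℕ → ℕ} {d e : El ι} {d' e' : El ι'}
    (h : Lk b b' d e d' e') : Lk b b' e d e' d' :=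
  ⟨by rw [eq_comm, h.1, eq_comm], by rw [eq_comm, h.2.1, eq_comm], h.2.2.2, h.2.2.1⟩

theorem Lk.swap {b : ι → ℕ → ℕ} {b' : ι' → ℕ → ℕ} {d e : El ι} {d' e' : El ι'}
    (h : Lk b b' d e d' e') : Lk b' b d' e' d e :=
  ⟨h.1.symm, h.2.1.symm, h.2.2.1.symm, h.2.2.2.symm⟩

theorem not_rel_rel {b : ι → ℕ → ℕ} (hb : Good b) {d e : El ι} (h : d.rel e) : ¬ e.rel d := by
  intro h'
  have h1 := (rel_spec hb h).1
  have h2 := (rel_spec hb h').1
  have h3 := rk_nxt d.typ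
  have h4 := rk_nxt e.typ
  rw [← h1] at h3
  rw [← h2] at h4
  omega

theorem not_rel_self {b : ι → ℕ → ℕ} (hb : Good b) (d : El ι) : ¬ d.rel d := fun h =>
  not_rel_rel hb h h

theorem ext_ex [Nonempty ι'] {b : ι → ℕ → ℕ} {b' : ι' → ℕ → ℕ} (hb : Good b) (hb' : Good b')
    (d : El ι) (d' : El ι') (hd : d.typ = d'.typ) (e : El ι) :
    ∃ e' : El ι', e.typ = e'.typ ∧ Lk b b' d e d' e' := by
  classical
  by_cases h1 : d.rel e
  · obtain ⟨e', he'⟩ := succ_ex d'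
    obtain ⟨g1, g2⟩ := rel_spec hb h1
    obtain ⟨g3, g4⟩ := rel_spec hb' he'
    refine ⟨e', by rw [g1, g3, hd], ?_⟩
    rw [hd] at g2
    obtain ⟨g5, g6⟩ := g2.same g4
    exact ⟨g5, g6, ⟨fun _ => he', fun _ => h1⟩,
      ⟨fun h => absurd h (not_rel_rel hb h1), fun h => absurd h (not_rel_rel hb' he')⟩⟩
  by_cases h2 : e.rel d
  · obtain ⟨g1, g2⟩ := rel_spec hb h2
    obtain ⟨e', he', het⟩ := pred_ex d' e.typ (by rw [← hd, g1])
    obtain ⟨g3, g4⟩ := rel_spec hb' he'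
    refine ⟨e', het.symm, ?_⟩
    rw [het] at g4
    obtain ⟨g5, g6⟩ := g2.same g4
    refine ⟨by rw [eq_comm, g5, eq_comm], by rw [eq_comm, g6, eq_comm],
      ⟨fun h => absurd h h1, fun h => absurd h (not_rel_rel hb' he')⟩,
      ⟨fun _ => he', fun _ => h2⟩⟩
  · let w : ℕ × ℕ := (if (d.pos b).1 = (e.pos b).1 then (d'.pos b').1 else (d'.pos b').1 + 1,
      if (d.pos b).2 = (e.pos b).2 then (d'.pos b').2 else (d'.pos b').2 + 1)
    have hw1 : (d.pos b).1 = (e.pos b).1 ↔ (d'.pos b').1 = w.1 := by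
      simp only [w]; split_ifs with h <;> simp [h]
    have hw2 : (d.pos b).2 = (e.pos b).2 ↔ (d'.pos b').2 = w.2 := by
      simp only [w]; split_ifs with h <;> simp [h]
    rcases d' with ⟨u, t, s⟩ | _ | ⟨i, p, k⟩
    · refine ⟨noise w e.typ (!s), rfl, hw1, hw2, ⟨fun h => absurd h h1, fun h => ?_⟩,
        ⟨fun h => absurd h h2, fun h => ?_⟩⟩
      · have := h.1
        simp at this
      · have := h.1
        simp at this
    · exact ⟨noise w e.typ true, rfl, hw1, hw2, ⟨fun h => absurd h h1, fun h => h.elim⟩,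
        ⟨fun h => absurd h h2, fun h => h.elim⟩⟩
    · exact ⟨noise w e.typ true, rfl, hw1, hw2, ⟨fun h => absurd h h1, fun h => h.elim⟩,
        ⟨fun h => absurd h h2, fun h => h.elim⟩⟩

/-- The shared unary predicates. -/
def shd (a : ℕ → ℕ) (n : ℕ) : Typ → Prop
  | rt => n = 4
  | tk p0 k => n = 0 ∨ n = 4 * a k + 16
  | tk p1 _ => n = 1
  | tk p2 _ => n = 2
  | tk p3 _ => n = 3

/-- The model with block functions `b`, letters `a` and private predicates `priv`. -/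
def model (b : ι → ℕ → ℕ) (a : ℕ → ℕ) (priv : ℕ → El ι → Prop) : Str where
  D := El ι
  nonempty := ⟨root⟩
  un n e := shd a n e.typ ∨ priv n e
  bin n d e := match n with
    | 0 => (d.pos b).1 = (e.pos b).1
    | 1 => (d.pos b).2 = (e.pos b).2
    | 2 => d.rel e
    | _ => False
  equiv₁ := ⟨fun _ => rfl, fun h => h.symm, fun h h' => h.trans h'⟩
  equiv₂ := ⟨fun _ => rfl, fun h => h.symm, fun h h' => h.trans h'⟩

theorem bisim [Nonempty ι] [Nonempty ι'] {b : ι → ℕ → ℕ} {b' : ι' → ℕ → ℕ} (hb : Good b)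
    (hb' : Good b') (a : ℕ → ℕ) (P : ℕ → El ι → Prop) (P' : ℕ → El ι' → Prop) (χ : Fml)
    (h1 : ∀ n ∈ usig χ, ∀ e, ¬ P n e) (h2 : ∀ n ∈ usig χ, ∀ e, ¬ P' n e) :
    ∀ (d e : El ι) (d' e' : El ι'), d.typ = d'.typ → e.typ = e'.typ → Lk b b' d e d' e' →
      (Sat (model b a P) χ d e ↔ Sat (model b' a P') χ d' e') := by
  induction χ with
  | un n v =>
    intro d e d' e' hd he hL
    have g1 := h1 n rfl
    have g2 := h2 n rfl
    cases v
    · simp [model, hd, g1, g2]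
    · simp [model, he, g1, g2]
  | bin n v w =>
    intro d e d' e' hd he hL
    match n with
    | 0 => cases v <;> cases w <;> simp [model, hL.1, hL.symm.1]
    | 1 => cases v <;> cases w <;> simp [model, hL.2.1, hL.symm.2.1]
    | 2 => cases v <;> cases w <;> simp [model, hL.2.2.1, hL.symm.2.2.1, not_rel_self hb,
             not_rel_self hb']
    | n + 3 => simp [model]
  | neg φ ih =>
    intro d e d' e' hd he hL
    exact not_congr (ih h1 h2 d e d' e' hd he hL)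
  | and φ ψ ih1 ih2 =>
    intro d e d' e' hd he hL
    exact and_congr (ih1 (fun n hn => h1 n (Or.inl hn)) (fun n hn => h2 n (Or.inl hn))
      d e d' e' hd he hL) (ih2 (fun n hn => h1 n (Or.inr hn)) (fun n hn => h2 n (Or.inr hn))
      d e d' e' hd he hL)
  | ex v φ ih =>
    intro d e d' e' hd he hL
    cases v
    · constructor
      · rintro ⟨f, hf⟩
        obtain ⟨f', hf', hL'⟩ := ext_ex hb hb' e e' he f
        exact ⟨f', (ih h1 h2 f e f' e' hf' he hL'.symm).1 hf⟩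
      · rintro ⟨f', hf'⟩
        obtain ⟨f, hf, hL'⟩ := ext_ex hb' hb e' e he.symm f'
        exact ⟨f, (ih h1 h2 f e f' e' hf.symm he hL'.symm.swap).2 hf'⟩
    · constructor
      · rintro ⟨f, hf⟩
        obtain ⟨f', hf', hL'⟩ := ext_ex hb hb' d d' hd f
        exact ⟨f', (ih h1 h2 d f d' f' hd hf' hL').1 hf⟩
      · rintro ⟨f', hf'⟩
        obtain ⟨f, hf, hL'⟩ := ext_ex hb' hb d' d hd.symm f'
        exact ⟨f, (ih h1 h2 d f d' f' hd hf.symm hL'.swap).2 hf'⟩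

end Pool.Agent.LibFO2E
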