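import Mathlib
import Pool.Agent.LibFO2E.Model
import Pool.Agent.LibFO2E.Cat

set_option autoImplicit false

/-!
The two models for a run which does not halt.
-/

namespace Pool.Agent.LibFO2E

open Ph Typ El Fml Var

variable {ι : Type}

/-- Numbers of shared unary predicates. -/
def IsSh (n : ℕ) : Prop := n < 5 ∨ ∃ c, n = 4 * c + 16

section model
variable {b : ι → ℕ → ℕ} {a : ℕ → ℕ} {P : ℕ → El ι → Prop}

theorem un_iff (hP : ∀ n e, P n e → ¬ IsSh n) {n : ℕ} (hn : IsSh n) (e : El ι) :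
    (model b a P).un n e ↔ shd a n e.typ := by
  constructor
  · rintro (h | h)
    · exact h
    · exact absurd hn (hP n e h)
  · exact Or.inl

theorem shd0 (t : Typ) : shd a 0 t ↔ ∃ k, t = tk p0 k := by
  rcases t with _ | ⟨p, k⟩
  · simp [shd]
  · cases p <;> simp [shd]

theorem shd1 (t : Typ) : shd a 1 t ↔ ∃ k, t = tk p1 k := by
  rcases t with _ | ⟨p, k⟩
  · simp [shd]
  · cases p <;> simp [shd]

theorem shd2 (t : Typ) : shd a 2 t ↔ ∃ k, t = tk p2 k := by
  rcases t with _ | ⟨p, k⟩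
  · simp [shd]
  · cases p <;> simp [shd]

theorem shd3 (t : Typ) : shd a 3 t ↔ ∃ k, t = tk p3 k := by
  rcases t with _ | ⟨p, k⟩
  · simp [shd]
  · cases p <;> simp [shd]

theorem shd4 (t : Typ) : shd a 4 t ↔ t = rt := by
  rcases t with _ | ⟨p, k⟩
  · simp [shd]
  · cases p <;> simp [shd]

theorem shdL (c : ℕ) (t : Typ) : shd a (Ls c) t ↔ ∃ k, t = tk p0 k ∧ a k = c := by
  rcases t with _ | ⟨p, k⟩
  · simp [shd, Ls]
  · cases p <;> simp [shd, Ls]
    constructor
    · intro h; omega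
    · intro h; omega

theorem un0 (hP : ∀ n e, P n e → ¬ IsSh n) (e : El ι) :
    (model b a P).un 0 e ↔ ∃ k, e.typ = tk p0 k := by
  exact (un_iff hP (Or.inl (by norm_num)) e).trans (shd0 _)

theorem un1 (hP : ∀ n e, P n e → ¬ IsSh n) (e : El ι) :
    (model b a P).un 1 e ↔ ∃ k, e.typ = tk p1 k := by
  exact (un_iff hP (Or.inl (by norm_num)) e).trans (shd1 _)

theorem un2 (hP : ∀ n e, P n e → ¬ IsSh n) (e : El ι) :
    (model b a P).un 2 e ↔ ∃ k, e.typ = tk p2 k := by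
  exact (un_iff hP (Or.inl (by norm_num)) e).trans (shd2 _)

theorem un3 (hP : ∀ n e, P n e → ¬ IsSh n) (e : El ι) :
    (model b a P).un 3 e ↔ ∃ k, e.typ = tk p3 k := by
  exact (un_iff hP (Or.inl (by norm_num)) e).trans (shd3 _)

theorem un4 (hP : ∀ n e, P n e → ¬ IsSh n) (e : El ι) :
    (model b a P).un 4 e ↔ e.typ = rt := by
  exact (un_iff hP (Or.inl (by norm_num)) e).trans (shd4 _)

theorem unL (hP : ∀ n e, P n e → ¬ IsSh n) (c : ℕ) (e : El ι) :
    (model b a P).un (Ls c) e ↔ ∃ k, e.typ = tk p0 k ∧ a k = c := by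
  exact (un_iff hP (Or.inr ⟨c, rfl⟩) e).trans (shdL _ _)

theorem model_sh (hb : Good b) (hP : ∀ n e, P n e → ¬ IsSh n) (k : ℕ) :
    ShSem (model b a P) k := by
  refine ⟨?_, ?_, ?_, ?_, ?_, ?_⟩
  · intro d e h1 h2
    replace h1 := (un4 hP d).1 h1
    obtain ⟨h3, h4⟩ := rel_spec hb h2
    rw [h1] at h3 h4
    exact ⟨h4.1, h4.2, (un0 hP e).2 ⟨0, h3⟩⟩
  · intro d e h1 h2
    obtain ⟨m, h1⟩ := (un0 hP d).1 h1
    obtain ⟨h3, h4⟩ := rel_spec hb h2
    rw [h1] at h3 h4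
    exact ⟨h4.1, (un1 hP e).2 ⟨m, h3⟩⟩
  · intro d e h1 h2
    obtain ⟨m, h1⟩ := (un1 hP d).1 h1
    obtain ⟨h3, h4⟩ := rel_spec hb h2
    rw [h1] at h3 h4
    exact ⟨h4.1, (un2 hP e).2 ⟨m, h3⟩⟩
  · intro d e h1 h2
    obtain ⟨m, h1⟩ := (un2 hP d).1 h1
    obtain ⟨h3, h4⟩ := rel_spec hb h2
    rw [h1] at h3 h4
    exact ⟨h4.2, (un3 hP e).2 ⟨m, h3⟩⟩
  · intro d e h1 h2
    obtain ⟨m, h1⟩ := (un3 hP d).1 h1
    obtain ⟨h3, h4⟩ := rel_spec hb h2
    rw [h1] at h3 h4
    exact ⟨h4.2, (un0 hP e).2 ⟨m + 1, h3⟩⟩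
  · intro c _ d h
    obtain ⟨m, h1, -⟩ := (unL hP c d).1 h
    exact (un0 hP d).2 ⟨m, h1⟩

end model

/-! ### The right hand model -/

/-- not a noise element -/
def El.main : El ι → Prop
  | noise _ _ _ => False
  | _ => True

def bB : Unit → ℕ → ℕ := fun _ k => k

theorem good_bB : Good bB := ⟨fun _ => rfl, fun _ _ => Or.inr rfl⟩

def PB (n : ℕ) (e : El Unit) : Prop := n = 5 ∧ e.main

theorem PB_sh (n : ℕ) (e : El Unit) (h : PB n e) : ¬ IsSh n := by
  rintro (h' | ⟨c, h'⟩) <;> have := h.1 <;> omega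

theorem PB_5 (a : ℕ → ℕ) (e : El Unit) : (model bB a PB).un 5 e ↔ e.main := by
  constructor
  · rintro (h | h)
    · exfalso
      rcases ht : e.typ with _ | ⟨p, k⟩
      · rw [ht] at h; simp [shd] at h
      · rw [ht] at h
        cases p <;> simp [shd] at h <;> omega
    · exact h.2
  · exact fun h => Or.inr ⟨rfl, h⟩

theorem main_rel {d e : El ι} (h : d.main) (h' : d.rel e) : e.main := by
  rcases d with ⟨u, t, s⟩ | _ | ⟨i, p, k⟩
  · exact h.elim
  · rcases e with ⟨u', t', s'⟩ | _ | ⟨j, p', k'⟩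
    · exact h'.elim
    · exact h'.elim
    · trivial
  · rcases e with ⟨u', t', s'⟩ | _ | ⟨j, p', k'⟩
    · exact h'.elim
    · exact h'.elim
    · trivial

theorem main_tk {d : El ι} (h : d.main) {p : Ph} {k : ℕ} (ht : d.typ = tk p k) :
    ∃ i, d = trk i p k := by
  rcases d with ⟨u, t, s⟩ | _ | ⟨i, p', k'⟩
  · exact h.elim
  · cases ht
  · simp only [El.typ, tk.injEq] at ht
    exact ⟨i, by rw [ht.1, ht.2]⟩

theorem model_npsi (a : ℕ → ℕ) (k : ℕ) : NpsiSem (model bB a PB) k (root : El Unit) := by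
  have key : ∀ {d : El Unit} {p : Ph} {m : ℕ}, (model bB a PB).un 5 d → d.typ = tk p m →
      d = trk () p m := by
    intro d p m h ht
    obtain ⟨i, rfl⟩ := main_tk ((PB_5 a d).1 h) ht
    rfl
  refine ⟨(PB_5 a _).2 trivial, (un4 PB_sh _).2 rfl, model_sh good_bB PB_sh k, ?_, ?_, ?_, ?_, ?_,
    ?_⟩
  · intro d e h1 h2
    exact (PB_5 a e).2 (main_rel ((PB_5 a d).1 h1) h2)
  · intro d e h1 h2 h3 h4 h5
    obtain ⟨m, h3⟩ := (un1 PB_sh d).1 h3
    obtain ⟨m', h4⟩ := (un1 PB_sh e).1 h4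
    obtain rfl := key h1 h3
    obtain rfl := key h2 h4
    have h5 : m = m' := h5
    rw [h5]
    rfl
  · intro d e h1 h2 h3 h4 h5
    obtain ⟨m, h3⟩ := (un2 PB_sh d).1 h3
    obtain ⟨m', h4⟩ := (un2 PB_sh e).1 h4
    obtain rfl := key h1 h3
    obtain rfl := key h2 h4
    have h5 : m = m' := h5
    rw [h5]
    rfl
  · intro d e h1 h2 h3 h4 h5
    obtain ⟨m, h3⟩ := (un3 PB_sh d).1 h3
    obtain ⟨m', h4⟩ := (un3 PB_sh e).1 h4
    obtain rfl := key h1 h3
    obtain rfl := key h2 h4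
    have h5 : m + 1 = m' + 1 := h5
    have h6 : m = m' := by omega
    rw [h6]
    rfl
  · intro d e h1 h2 h3 h4 h5
    obtain ⟨m, h3⟩ := (un0 PB_sh d).1 h3
    obtain ⟨m', h4⟩ := (un0 PB_sh e).1 h4
    obtain rfl := key h1 h3
    obtain rfl := key h2 h4
    have h5 : m = m' := h5
    rw [h5]
    rfl
  · intro c _ c' _ d e h1 h2 h3 h4 h5 h6
    obtain ⟨m, h3⟩ := (un0 PB_sh d).1 h3
    obtain ⟨m', h4⟩ := (un0 PB_sh e).1 h4
    obtain rfl := key h1 h3
    obtain rfl := key h2 h4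
    have h5 : m = m' := h5
    subst h5
    obtain ⟨m1, h6, h7⟩ := (unL PB_sh c _).1 h6
    simp only [El.typ, tk.injEq, true_and] at h6
    subst h6
    refine Iff.trans ?_ (unL PB_sh c' _).symm
    constructor
    · rintro rfl
      exact ⟨m, rfl, h7⟩
    · rintro ⟨m2, h8, h9⟩
      simp only [El.typ, tk.injEq, true_and] at h8
      subst h8
      rw [← h7, h9]

/-! ### Block numbers -/

section blk
variable {ini : List ℕ} {v : ℕ → List ℕ} (h0 : ini ≠ []) (hv : ∀ j, v j ≠ [])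

include h0 hv in
theorem blk_ex (k : ℕ) : ∃ j, k < (cat ini v (j + 1)).length :=
  ⟨k, by have := cat_length ini v h0 hv (k + 1); omega⟩

open Classical in
/-- The block in which the `k`-th letter of `ini v₀ v₁ ⋯` is read (`ini v₀` is block `0`). -/
noncomputable def blk (k : ℕ) : ℕ := Nat.find (blk_ex h0 hv k)

theorem len_mono {i j : ℕ} (h : i ≤ j) : (cat ini v i).length ≤ (cat ini v j).length :=
  (cat_prefix ini v h).length_le

theorem lt_len_blk (k : ℕ) : k < (cat ini v (blk h0 hv k + 1)).length := by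
  classical
  exact Nat.find_spec (blk_ex h0 hv k)

theorem len_le_of_lt {k j : ℕ} (h : j < blk h0 hv k) : (cat ini v (j + 1)).length ≤ k := by
  classical
  exact not_lt.1 (Nat.find_min (blk_ex h0 hv k) h)

theorem blk_eq {k j : ℕ} (h1 : k < (cat ini v (j + 1)).length)
    (h2 : ∀ i < j, (cat ini v (i + 1)).length ≤ k) : blk h0 hv k = j := by
  rcases lt_trichotomy (blk h0 hv k) j with h | h | h
  · have := h2 _ h
    have := lt_len_blk h0 hv k
    omega
  · exact h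
  · have := len_le_of_lt h0 hv h
    omega

theorem blk_stay {k : ℕ} (h : k + 1 < (cat ini v (blk h0 hv k + 1)).length) :
    blk h0 hv (k + 1) = blk h0 hv k :=
  blk_eq h0 hv h fun i hi => (len_le_of_lt h0 hv hi).trans (Nat.le_succ k)

theorem blk_move {k : ℕ} (h : ¬ k + 1 < (cat ini v (blk h0 hv k + 1)).length) :
    blk h0 hv (k + 1) = blk h0 hv k + 1 := by
  have h1 := lt_len_blk h0 hv k
  have h2 : k + 1 = (cat ini v (blk h0 hv k + 1)).length := by omega
  apply blk_eq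
  · have := List.length_pos_iff.2 (hv (blk h0 hv k + 1))
    rw [cat, List.length_append]
    omega
  · intro i hi
    have : (cat ini v (i + 1)).length ≤ (cat ini v (blk h0 hv k + 1)).length := len_mono (by omega)
    omega

theorem blk_zero {k : ℕ} (h : k ≤ ini.length) : blk h0 hv k = 0 := by
  apply blk_eq
  · have := List.length_pos_iff.2 (hv 0)
    rw [cat, List.length_append]
    simp only [cat]
    omega
  · intro i _; omega

theorem len_blk_le {k : ℕ} (h : ini.length ≤ k) : (cat ini v (blk h0 hv k)).length ≤ k := by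
  rcases Nat.eq_zero_or_pos (blk h0 hv k) with h1 | h1
  · rw [h1]; exact h
  · have := len_le_of_lt h0 hv (show blk h0 hv k - 1 < blk h0 hv k by omega)
    rwa [Nat.sub_add_cancel h1] at this

end blk

end Pool.Agent.LibFO2E
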