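import Mathlib
import Pool.Agent.LibFO2E.Right

set_option autoImplicit false

/-!
The left hand model.
-/

namespace Pool.Agent.LibFO2E

open Ph Typ El Fml Var

theorem Xs_inj {q a q' a' : ℕ} (h : Xs q a = Xs q' a') : q = q' ∧ a = a' := by
  simp only [Xs] at h
  exact Nat.pair_eq_pair.1 (by omega)

theorem Ns_inj {q q' : ℕ} (h : Ns q = Ns q') : q = q' := by
  simp only [Ns] at h
  omega

theorem Ks_inj {q a p q' a' p' : ℕ} (h : Ks q a p = Ks q' a' p') : q = q' ∧ a = a' ∧ p = p' := by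
  simp only [Ks] at h
  obtain ⟨h1, h2⟩ := Nat.pair_eq_pair.1 (show Nat.pair (Nat.pair q a) p =
    Nat.pair (Nat.pair q' a') p' by omega)
  obtain ⟨h3, h4⟩ := Nat.pair_eq_pair.1 h1
  exact ⟨h3, h4, h2⟩

section
variable {ini : List ℕ} {v : ℕ → List ℕ} (h0 : ini ≠ []) (hv : ∀ j, v j ≠ []) (q a : ℕ → ℕ)

/-- block functions of the two tracks -/
noncomputable def bA : Bool → ℕ → ℕ
  | false, k => k
  | true, k => blk h0 hv k

theorem good_bA : Good (bA h0 hv) := by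
  constructor
  · rintro (_ | _)
    · rfl
    · exact blk_zero h0 hv (Nat.zero_le _)
  · rintro (_ | _) k
    · exact Or.inr rfl
    · by_cases h : k + 1 < (cat ini v (blk h0 hv k + 1)).length
      · exact Or.inl (blk_stay h0 hv h)
      · exact Or.inr (blk_move h0 hv h)

def Qp (b : ℕ → ℕ) (p : Ph) (k : ℕ) : Prop := p = p0 ∨ (p = p2 ∧ b (k + 1) = b k)
def Ap (b : ℕ → ℕ) (p : Ph) (k : ℕ) : Prop := p = p2 ∧ b (k + 1) = b k + 1

/-- private predicates of the left hand model -/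
def PA (n : ℕ) : El Bool → Prop
  | noise _ _ _ => False
  | root => n = 7
  | trk i p k => n = 7 ∨ (n = 6 ∧ i = false) ∨ (n = 8 ∧ Qp (bA h0 hv i) p k) ∨
      (n = 9 ∧ Ap (bA h0 hv i) p k) ∨ (n = 10 ∧ i = true ∧ k < ini.length) ∨
      (n = Xs (q (bA h0 hv i k)) (a (bA h0 hv i k)) ∧ Qp (bA h0 hv i) p k) ∨
      (n = Ns (q (k + 1)) ∧ i = false ∧ p ≠ p0) ∨
      (n = Ks (q (blk h0 hv k)) (a (blk h0 hv k)) (k - (cat ini v (blk h0 hv k)).length) ∧
        i = true ∧ ini.length ≤ k)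

theorem PA_sh (n : ℕ) (e : El Bool) (h : PA h0 hv q a n e) : ¬ IsSh n := by
  rcases e with ⟨u, t, s⟩ | _ | ⟨i, p, k⟩
  · exact h.elim
  · rintro (h' | ⟨c, h'⟩) <;> (simp only [PA] at h; omega)
  · simp only [PA, Xs, Ns, Ks] at h
    rintro (h' | ⟨c, h'⟩)
    · rcases h with h | ⟨h, -⟩ | ⟨h, -⟩ | ⟨h, -⟩ | ⟨h, -⟩ | ⟨h, -⟩ | ⟨h, -⟩ | ⟨h, -⟩ <;> omega
    · rcases h with h | ⟨h, -⟩ | ⟨h, -⟩ | ⟨h, -⟩ | ⟨h, -⟩ | ⟨h, -⟩ | ⟨h, -⟩ | ⟨h, -⟩ <;> omega

/-- The left hand model. -/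
noncomputable abbrev MA : Str := model (bA h0 hv) a (PA h0 hv q a)

theorem unP {n : ℕ} (hn : ¬ IsSh n) (e : El Bool) : (MA h0 hv q a).un n e ↔ PA h0 hv q a n e := by
  constructor
  · rintro (h | h)
    · exfalso
      apply hn
      rcases ht : e.typ with _ | ⟨p, k⟩
      · rw [ht] at h
        simp only [shd] at h
        exact Or.inl (by omega)
      · rw [ht] at h
        cases p <;> simp only [shd] at h
        · rcases h with h | h
          · exact Or.inl (by omega)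
          · exact Or.inr ⟨_, h⟩
        all_goals exact Or.inl (by omega)
    · exact h
  · exact Or.inr

theorem nsh {n : ℕ} (h1 : 5 ≤ n) (h2 : ∀ c, n ≠ 4 * c + 16) : ¬ IsSh n := by
  rintro (h | ⟨c, h⟩)
  · omega
  · exact h2 c h

theorem m7 (e : El Bool) : (MA h0 hv q a).un 7 e ↔ e.main := by
  refine (unP h0 hv q a (nsh (by norm_num) (by omega)) e).trans ?_
  rcases e with ⟨u, t, s⟩ | _ | ⟨i, p, k⟩
  · simp [PA, El.main]
  · simp [PA, El.main]
  · simp [PA, El.main]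

theorem m6 (e : El Bool) : (MA h0 hv q a).un 6 e ↔ ∃ p k, e = trk false p k := by
  refine (unP h0 hv q a (nsh (by norm_num) (by omega)) e).trans ?_
  rcases e with ⟨u, t, s⟩ | _ | ⟨i, p, k⟩
  · simp [PA]
  · simp [PA]
  · simp only [PA, Xs, Ns, Ks]
    constructor
    · rintro (h | ⟨-, h⟩ | ⟨h, -⟩ | ⟨h, -⟩ | ⟨h, -⟩ | ⟨h, -⟩ | ⟨h, -⟩ | ⟨h, -⟩) <;>
        first
        | (exfalso; omega)
        | exact ⟨p, k, by rw [h]⟩
    · rintro ⟨p', k', h⟩
      simp only [trk.injEq] at h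
      exact Or.inr (Or.inl ⟨trivial, h.1⟩)

theorem m8 (e : El Bool) : (MA h0 hv q a).un 8 e ↔
    ∃ i p k, e = trk i p k ∧ Qp (bA h0 hv i) p k := by
  refine (unP h0 hv q a (nsh (by norm_num) (by omega)) e).trans ?_
  rcases e with ⟨u, t, s⟩ | _ | ⟨i, p, k⟩
  · simp [PA]
  · simp [PA]
  · simp only [PA, Xs, Ns, Ks]
    constructor
    · rintro (h | ⟨h, -⟩ | ⟨-, h⟩ | ⟨h, -⟩ | ⟨h, -⟩ | ⟨h, -⟩ | ⟨h, -⟩ | ⟨h, -⟩) <;>
        first
        | (exfalso; omega)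
        | exact ⟨i, p, k, rfl, h⟩
    · rintro ⟨i', p', k', h, h'⟩
      simp only [trk.injEq] at h
      obtain ⟨rfl, rfl, rfl⟩ := h
      exact Or.inr (Or.inr (Or.inl ⟨trivial, h'⟩))

theorem m9 (e : El Bool) : (MA h0 hv q a).un 9 e ↔
    ∃ i p k, e = trk i p k ∧ Ap (bA h0 hv i) p k := by
  refine (unP h0 hv q a (nsh (by norm_num) (by omega)) e).trans ?_
  rcases e with ⟨u, t, s⟩ | _ | ⟨i, p, k⟩
  · simp [PA]
  · simp [PA]
  · simp only [PA, Xs, Ns, Ks]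
    constructor
    · rintro (h | ⟨h, -⟩ | ⟨h, -⟩ | ⟨-, h⟩ | ⟨h, -⟩ | ⟨h, -⟩ | ⟨h, -⟩ | ⟨h, -⟩) <;>
        first
        | (exfalso; omega)
        | exact ⟨i, p, k, rfl, h⟩
    · rintro ⟨i', p', k', h, h'⟩
      simp only [trk.injEq] at h
      obtain ⟨rfl, rfl, rfl⟩ := h
      exact Or.inr (Or.inr (Or.inr (Or.inl ⟨trivial, h'⟩)))

theorem m10 (e : El Bool) : (MA h0 hv q a).un 10 e ↔
    ∃ p k, e = trk true p k ∧ k < ini.length := by
  refine (unP h0 hv q a (nsh (by norm_num) (by omega)) e).trans ?_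
  rcases e with ⟨u, t, s⟩ | _ | ⟨i, p, k⟩
  · simp [PA]
  · simp [PA]
  · simp only [PA, Xs, Ns, Ks]
    constructor
    · rintro (h | ⟨h, -⟩ | ⟨h, -⟩ | ⟨h, -⟩ | ⟨-, h, h'⟩ | ⟨h, -⟩ | ⟨h, -⟩ | ⟨h, -⟩) <;>
        first
        | (exfalso; omega)
        | exact ⟨p, k, by rw [h], h'⟩
    · rintro ⟨p', k', h, h'⟩
      simp only [trk.injEq] at h
      obtain ⟨rfl, rfl, rfl⟩ := h
      exact Or.inr (Or.inr (Or.inr (Or.inr (Or.inl ⟨trivial, rfl, h'⟩))))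

theorem mX (q' a' : ℕ) (e : El Bool) : (MA h0 hv q a).un (Xs q' a') e ↔
    ∃ i p k, e = trk i p k ∧ Qp (bA h0 hv i) p k ∧ q' = q (bA h0 hv i k) ∧
      a' = a (bA h0 hv i k) := by
  refine (unP h0 hv q a (nsh (by simp only [Xs]; omega) (by simp only [Xs]; omega)) e).trans ?_
  rcases e with ⟨u, t, s⟩ | _ | ⟨i, p, k⟩
  · simp [PA]
  · simp only [PA, Xs]
    constructor
    · intro h; omega
    · rintro ⟨i, p, k, h, -⟩; cases h
  · simp only [PA]
    constructor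
    · rintro (h | ⟨h, -⟩ | ⟨h, -⟩ | ⟨h, -⟩ | ⟨h, -⟩ | ⟨h, h'⟩ | ⟨h, -⟩ | ⟨h, -⟩) <;>
        first
        | (exfalso; simp only [Xs, Ns, Ks] at h; omega)
        | skip
      obtain ⟨h1, h2⟩ := Xs_inj h
      exact ⟨i, p, k, rfl, h', h1, h2⟩
    · rintro ⟨i', p', k', h, h', h1, h2⟩
      simp only [trk.injEq] at h
      obtain ⟨rfl, rfl, rfl⟩ := h
      exact Or.inr (Or.inr (Or.inr (Or.inr (Or.inr (Or.inl ⟨by rw [h1, h2], h'⟩)))))

theorem mN (q' : ℕ) (e : El Bool) : (MA h0 hv q a).un (Ns q') e ↔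
    ∃ p k, e = trk false p k ∧ p ≠ p0 ∧ q' = q (k + 1) := by
  refine (unP h0 hv q a (nsh (by simp only [Ns]; omega) (by simp only [Ns]; omega)) e).trans ?_
  rcases e with ⟨u, t, s⟩ | _ | ⟨i, p, k⟩
  · simp [PA]
  · simp only [PA, Ns]
    constructor
    · intro h; omega
    · rintro ⟨p, k, h, -⟩; cases h
  · simp only [PA]
    constructor
    · rintro (h | ⟨h, -⟩ | ⟨h, -⟩ | ⟨h, -⟩ | ⟨h, -⟩ | ⟨h, -⟩ | ⟨h, h', h''⟩ | ⟨h, -⟩) <;>
        first
        | (exfalso; simp only [Xs, Ns, Ks] at h; omega)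
        | skip
      exact ⟨p, k, by rw [h'], h'', Ns_inj h⟩
    · rintro ⟨p', k', h, h', h1⟩
      simp only [trk.injEq] at h
      obtain ⟨rfl, rfl, rfl⟩ := h
      exact Or.inr (Or.inr (Or.inr (Or.inr (Or.inr (Or.inr (Or.inl ⟨by rw [h1], rfl, h'⟩))))))

theorem mK (q' a' p' : ℕ) (e : El Bool) : (MA h0 hv q a).un (Ks q' a' p') e ↔
    ∃ p k, e = trk true p k ∧ ini.length ≤ k ∧ q' = q (blk h0 hv k) ∧ a' = a (blk h0 hv k) ∧
      p' = k - (cat ini v (blk h0 hv k)).length := by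
  refine (unP h0 hv q a (nsh (by simp only [Ks]; omega) (by simp only [Ks]; omega)) e).trans ?_
  rcases e with ⟨u, t, s⟩ | _ | ⟨i, p, k⟩
  · simp [PA]
  · simp only [PA, Ks]
    constructor
    · intro h; omega
    · rintro ⟨p, k, h, -⟩; cases h
  · simp only [PA]
    constructor
    · rintro (h | ⟨h, -⟩ | ⟨h, -⟩ | ⟨h, -⟩ | ⟨h, -⟩ | ⟨h, -⟩ | ⟨h, -⟩ | ⟨h, h', h''⟩) <;>
        first
        | (exfalso; simp only [Xs, Ns, Ks] at h; omega)
        | skip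
      obtain ⟨h1, h2, h3⟩ := Ks_inj h
      exact ⟨p, k, by rw [h'], h'', h1, h2, h3⟩
    · rintro ⟨p', k', h, h', h1, h2, h3⟩
      simp only [trk.injEq] at h
      obtain ⟨rfl, rfl, rfl⟩ := h
      exact Or.inr (Or.inr (Or.inr (Or.inr (Or.inr (Or.inr (Or.inr ⟨by rw [h1, h2, h3], rfl, h'⟩))))))

/-- positions of `Q` elements -/
theorem pos_Q {i : Bool} {p : Ph} {k : ℕ} (h : Qp (bA h0 hv i) p k) :
    (trk i p k : El Bool).pos (bA h0 hv) = (bA h0 hv i k, bA h0 hv i k) := by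
  rcases h with rfl | ⟨rfl, h⟩
  · rfl
  · simp only [El.pos, tpos, h]

theorem pos_A {i : Bool} {p : Ph} {k : ℕ} (h : Ap (bA h0 hv i) p k) :
    (trk i p k : El Bool).pos (bA h0 hv) = (bA h0 hv i k, bA h0 hv i k + 1) := by
  obtain ⟨rfl, h⟩ := h
  simp only [El.pos, tpos, h]

theorem rel_trk {i : Bool} {p : Ph} {k : ℕ} {e : El Bool} (h : (trk i p k : El Bool).rel e) :
    ∃ p' k', e = trk i p' k' ∧ tk p' k' = nxt (tk p k) := by
  rcases e with ⟨u', t', s'⟩ | _ | ⟨j, p', k'⟩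
  · exact h.elim
  · exact h.elim
  · obtain ⟨rfl, h⟩ := h
    exact ⟨p', k', rfl, h⟩

theorem rel0 {i : Bool} {k : ℕ} {e : El Bool} (h : (trk i p0 k : El Bool).rel e) :
    e = trk i p1 k := by
  obtain ⟨p', k', rfl, g⟩ := rel_trk h
  simp only [nxt, tk.injEq] at g
  rw [g.1, g.2]

theorem rel1 {i : Bool} {k : ℕ} {e : El Bool} (h : (trk i p1 k : El Bool).rel e) :
    e = trk i p2 k := by
  obtain ⟨p', k', rfl, g⟩ := rel_trk h
  simp only [nxt, tk.injEq] at g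
  rw [g.1, g.2]

theorem rel2 {i : Bool} {k : ℕ} {e : El Bool} (h : (trk i p2 k : El Bool).rel e) :
    e = trk i p3 k := by
  obtain ⟨p', k', rfl, g⟩ := rel_trk h
  simp only [nxt, tk.injEq] at g
  rw [g.1, g.2]

theorem rel3 {i : Bool} {k : ℕ} {e : El Bool} (h : (trk i p3 k : El Bool).rel e) :
    e = trk i p0 (k + 1) := by
  obtain ⟨p', k', rfl, g⟩ := rel_trk h
  simp only [nxt, tk.injEq] at g
  rw [g.1, g.2]

theorem ph0 {i : Bool} {p : Ph} {k : ℕ}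
    (h : (MA h0 hv q a).un 0 (trk i p k : El Bool)) : p = p0 := by
  obtain ⟨m, h⟩ := (un0 (PA_sh h0 hv q a) _).1 h
  simp only [El.typ, tk.injEq] at h
  exact h.1

theorem ph1 {i : Bool} {p : Ph} {k : ℕ}
    (h : (MA h0 hv q a).un 1 (trk i p k : El Bool)) : p = p1 := by
  obtain ⟨m, h⟩ := (un1 (PA_sh h0 hv q a) _).1 h
  simp only [El.typ, tk.injEq] at h
  exact h.1

theorem ph2 {i : Bool} {p : Ph} {k : ℕ}
    (h : (MA h0 hv q a).un 2 (trk i p k : El Bool)) : p = p2 := by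
  obtain ⟨m, h⟩ := (un2 (PA_sh h0 hv q a) _).1 h
  simp only [El.typ, tk.injEq] at h
  exact h.1

theorem ph3 {i : Bool} {p : Ph} {k : ℕ}
    (h : (MA h0 hv q a).un 3 (trk i p k : El Bool)) : p = p3 := by
  obtain ⟨m, h⟩ := (un3 (PA_sh h0 hv q a) _).1 h
  simp only [El.typ, tk.injEq] at h
  exact h.1

variable (s K : ℕ) (δ : ℕ → ℕ → Option (ℕ × List ℕ))

theorem starts {k : ℕ} (hk : ini.length ≤ k)
    (hk' : k - (cat ini v (blk h0 hv k)).length = 0) :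
    Starts (MA h0 hv q a) s K δ (trk true p0 k : El Bool) := by
  intro q' _ c' _ r' _ hX
  obtain ⟨i, p, m, h1, -, h2, h3⟩ := (mX h0 hv q a _ _ _).1 hX
  simp only [trk.injEq] at h1
  obtain ⟨rfl, rfl, rfl⟩ := h1
  exact (mK h0 hv q a _ _ _ _).2 ⟨p0, k, rfl, hk, h2, h3, hk'.symm⟩

theorem model_phi (hq : ∀ j, q j < s ∧ a j < K)
    (hδ : ∀ j, δ (q j) (a j) = some (q (j + 1), v j))
    (ha : ∀ j, (cat ini v j).getD j 0 = a j) :
    PhiSem (MA h0 hv q a) s K δ (q 0) (root : El Bool) ∧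
      ∃ e : El Bool, (MA h0 hv q a).bin 2 (root : El Bool) e ∧ Rd (MA h0 hv q a) s K δ ini e := by
  have hb := good_bA h0 hv
  have hP := PA_sh h0 hv q a
  have hlet : ∀ j k, k < (cat ini v j).length → (cat ini v j).getD k 0 = a k := by
    intro j k hk
    rw [← ha k]
    exact cat_getD' ini v hk (cat_length ini v h0 hv k)
  refine ⟨⟨?_, ?_, model_sh hb hP K, ?_, ?_, ?_, ?_, ?_, ?_, ?_, ?_, ?_, ?_, ?_, ?_, ?_, ?_, ?_, ?_,
    ?_, ?_, ?_⟩, ?_⟩
  · exact (m7 h0 hv q a _).2 trivial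
  · exact (un4 hP _).2 rfl
  · exact fun d => succ_ex (d : El Bool)
  · -- cl7
    intro d e h1 h2
    exact (m7 h0 hv q a e).2 (main_rel ((m7 h0 hv q a d).1 h1) h2)
  · -- cl6
    intro d e h1 h2
    obtain ⟨p, k, rfl⟩ := (m6 h0 hv q a d).1 h1
    obtain ⟨p', k', rfl, -⟩ := rel_trk h2
    exact (m6 h0 hv q a _).2 ⟨p', k', rfl⟩
  · -- q
    intro d h1 h2
    obtain ⟨m, h3⟩ := (un0 hP d).1 h2
    obtain ⟨i, rfl⟩ := main_tk ((m7 h0 hv q a d).1 h1) h3
    exact (m8 h0 hv q a _).2 ⟨i, p0, m, rfl, Or.inl rfl⟩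
  · -- q1
    intro d e h1 h2 h3
    obtain ⟨i, p, k, rfl, g1⟩ := (m8 h0 hv q a d).1 h1
    obtain ⟨j, p', k', rfl, g2⟩ := (m8 h0 hv q a e).1 h2
    have h3 : ((trk i p k : El Bool).pos (bA h0 hv)).1 =
      ((trk j p' k' : El Bool).pos (bA h0 hv)).1 := h3
    show ((trk i p k : El Bool).pos (bA h0 hv)).2 = ((trk j p' k' : El Bool).pos (bA h0 hv)).2
    rw [pos_Q h0 hv g1, pos_Q h0 hv g2] at h3 ⊢
    exact h3
  · -- q2
    intro d e h1 h2 h3
    obtain ⟨i, p, k, rfl, g1⟩ := (m8 h0 hv q a d).1 h1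
    obtain ⟨j, p', k', rfl, g2⟩ := (m8 h0 hv q a e).1 h2
    have h3 : ((trk i p k : El Bool).pos (bA h0 hv)).2 =
      ((trk j p' k' : El Bool).pos (bA h0 hv)).2 := h3
    show ((trk i p k : El Bool).pos (bA h0 hv)).1 = ((trk j p' k' : El Bool).pos (bA h0 hv)).1
    rw [pos_Q h0 hv g1, pos_Q h0 hv g2] at h3 ⊢
    exact h3
  · -- a1
    intro d e h1 h2 h3
    obtain ⟨i, p, k, rfl, g1⟩ := (m9 h0 hv q a d).1 h1
    obtain ⟨j, p', k', rfl, g2⟩ := (m9 h0 hv q a e).1 h2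
    have h3 : ((trk i p k : El Bool).pos (bA h0 hv)).1 =
      ((trk j p' k' : El Bool).pos (bA h0 hv)).1 := h3
    show ((trk i p k : El Bool).pos (bA h0 hv)).2 = ((trk j p' k' : El Bool).pos (bA h0 hv)).2
    rw [pos_A h0 hv g1, pos_A h0 hv g2] at h3 ⊢
    simp only at h3 ⊢
    rw [h3]
  · -- x
    intro q' _ c' _ r' _ d e h1 h2 h3 h4
    obtain ⟨i, p, k, rfl, g1, h5, h6⟩ := (mX h0 hv q a _ _ d).1 h4
    obtain ⟨j, p', k', rfl, g2⟩ := (m8 h0 hv q a e).1 h2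
    have h3 : ((trk i p k : El Bool).pos (bA h0 hv)).1 =
      ((trk j p' k' : El Bool).pos (bA h0 hv)).1 := h3
    rw [pos_Q h0 hv g1, pos_Q h0 hv g2] at h3
    simp only at h3
    exact (mX h0 hv q a _ _ _).2 ⟨j, p', k', rfl, g2, by rw [h5, h3], by rw [h6, h3]⟩
  · -- s6
    refine ⟨(trk false p0 0 : El Bool), rfl, (m6 h0 hv q a _).2 ⟨p0, 0, rfl⟩, a 0, (hq 0).2,
      by rw [hδ 0]; rfl, (mX h0 hv q a _ _ _).2 ⟨false, p0, 0, rfl, Or.inl rfl, rfl, rfl⟩⟩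
  · -- m6
    intro d h1 h2
    obtain ⟨p, k, rfl⟩ := (m6 h0 hv q a d).1 h1
    obtain rfl := ph2 h0 hv q a h2
    exact (m9 h0 hv q a _).2 ⟨false, p2, k, rfl, rfl, rfl⟩
  · -- l6
    intro q' _ c' _ r' _ d h1 h2 h3
    obtain ⟨p, k, rfl⟩ := (m6 h0 hv q a d).1 h1
    obtain rfl := ph0 h0 hv q a h2
    obtain ⟨i, p', k', h4, -, h5, h6⟩ := (mX h0 hv q a _ _ _).1 h3
    simp only [trk.injEq] at h4
    obtain ⟨rfl, rfl, rfl⟩ := h4
    exact (unL hP c' _).2 ⟨k, rfl, h6.symm⟩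
  · -- n0
    intro q' _ c' _ r' hr d e h1 h2 h3 h4
    obtain ⟨p, k, rfl⟩ := (m6 h0 hv q a d).1 h1
    obtain rfl := ph0 h0 hv q a h2
    obtain ⟨i, p', k', h7, -, h5, h6⟩ := (mX h0 hv q a _ _ _).1 h3
    simp only [trk.injEq] at h7
    obtain ⟨rfl, rfl, rfl⟩ := h7
    obtain rfl := rel0 h4
    refine (mN h0 hv q a _ _).2 ⟨p1, k, rfl, by simp, ?_⟩
    have h5 : q' = q k := h5
    have h6 : c' = a k := h6
    rw [h5, h6, hδ k] at hr
    cases hr
    rfl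
  · -- n1
    intro q' _ d e h1 h2 h3
    obtain ⟨p, k, rfl, -, h4⟩ := (mN h0 hv q a _ d).1 h1
    obtain rfl := ph1 h0 hv q a h2
    obtain rfl := rel1 h3
    exact (mN h0 hv q a _ _).2 ⟨p2, k, rfl, by simp, h4⟩
  · -- n2
    intro q' _ d e h1 h2 h3
    obtain ⟨p, k, rfl, -, h4⟩ := (mN h0 hv q a _ d).1 h1
    obtain rfl := ph2 h0 hv q a h2
    obtain rfl := rel2 h3
    exact (mN h0 hv q a _ _).2 ⟨p3, k, rfl, by simp, h4⟩
  · -- n3
    intro q' _ d e h1 h2 h3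
    obtain ⟨p, k, rfl, -, h4⟩ := (mN h0 hv q a _ d).1 h1
    obtain rfl := ph3 h0 hv q a h2
    obtain rfl := rel3 h3
    refine ⟨a (k + 1), (hq _).2, by rw [h4, hδ (k + 1)]; rfl, ?_⟩
    exact (mX h0 hv q a _ _ _).2 ⟨false, p0, k + 1, rfl, Or.inl rfl, h4, rfl⟩
  · -- k
    intro q' _ c' _ r' hr p' hp'
    have keyK : ∀ {d : El Bool}, (MA h0 hv q a).un (Ks q' c' p') d →
        ∃ p k, d = trk true p k ∧ ini.length ≤ k ∧ q' = q (blk h0 hv k) ∧ c' = a (blk h0 hv k) ∧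
          p' = k - (cat ini v (blk h0 hv k)).length ∧ r' = (q (blk h0 hv k + 1), v (blk h0 hv k)) ∧
          (cat ini v (blk h0 hv k)).length ≤ k ∧
          (cat ini v (blk h0 hv k + 1)).length =
            (cat ini v (blk h0 hv k)).length + (v (blk h0 hv k)).length := by
      intro d hd
      obtain ⟨p, k, rfl, h1, h2, h3, h4⟩ := (mK h0 hv q a _ _ _ d).1 hd
      refine ⟨p, k, rfl, h1, h2, h3, h4, ?_, len_blk_le h0 hv h1, ?_⟩
      · have := hδ (blk h0 hv k)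
        rw [← h2, ← h3, hr] at this
        exact Option.some.inj this
      · rw [cat, List.length_append]
    refine ⟨?_, ?_, ?_, ?_, ?_, ?_⟩
    · intro d h1 h2
      obtain ⟨p, k, rfl, g1, g2, g3, g4, g5, g6, g7⟩ := keyK h1
      obtain rfl := ph0 h0 hv q a h2
      refine (unL hP _ _).2 ⟨k, rfl, ?_⟩
      have h3 := lt_len_blk h0 hv k
      rw [← hlet (blk h0 hv k + 1) k h3, cat, List.getD_append_right _ _ _ _ g6, g4, g5]
    · intro d e h1 h2 h3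
      obtain ⟨p, k, rfl, g1, g2, g3, g4, g5, g6, g7⟩ := keyK h1
      obtain rfl := ph0 h0 hv q a h2
      obtain rfl := rel0 h3
      exact (mK h0 hv q a _ _ _ _).2 ⟨p1, k, rfl, g1, g2, g3, g4⟩
    · intro d e h1 h2 h3
      obtain ⟨p, k, rfl, g1, g2, g3, g4, g5, g6, g7⟩ := keyK h1
      obtain rfl := ph1 h0 hv q a h2
      obtain rfl := rel1 h3
      exact (mK h0 hv q a _ _ _ _).2 ⟨p2, k, rfl, g1, g2, g3, g4⟩
    · intro d e h1 h2 h3
      obtain ⟨p, k, rfl, g1, g2, g3, g4, g5, g6, g7⟩ := keyK h1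
      obtain rfl := ph2 h0 hv q a h2
      obtain rfl := rel2 h3
      exact (mK h0 hv q a _ _ _ _).2 ⟨p3, k, rfl, g1, g2, g3, g4⟩
    · intro d h1 h2
      obtain ⟨p, k, rfl, g1, g2, g3, g4, g5, g6, g7⟩ := keyK h1
      obtain rfl := ph2 h0 hv q a h2
      have h3 := lt_len_blk h0 hv k
      split_ifs with hif
      · refine (m8 h0 hv q a _).2 ⟨true, p2, k, rfl, Or.inr ⟨rfl, ?_⟩⟩
        rw [g5] at hif
        simp only at hif
        exact blk_stay h0 hv (by omega)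
      · refine (m9 h0 hv q a _).2 ⟨true, p2, k, rfl, rfl, ?_⟩
        rw [g5] at hif
        simp only at hif
        exact blk_move h0 hv (by omega)
    · intro d e h1 h2 h3
      obtain ⟨p, k, rfl, g1, g2, g3, g4, g5, g6, g7⟩ := keyK h1
      obtain rfl := ph3 h0 hv q a h2
      obtain rfl := rel3 h3
      have h3 := lt_len_blk h0 hv k
      split_ifs with hif
      · rw [g5] at hif
        simp only at hif
        have hs := blk_stay h0 hv (k := k) (by omega)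
        refine (mK h0 hv q a _ _ _ _).2 ⟨p0, k + 1, rfl, by omega, by rw [hs, g2], by rw [hs, g3],
          ?_⟩
        rw [hs, g4]
        omega
      · rw [g5] at hif
        simp only at hif
        have hs := blk_move h0 hv (k := k) (by omega)
        apply starts h0 hv q a s K δ (by omega)
        rw [hs]
        omega
  · -- i0
    intro d e h1 h2 h3
    obtain ⟨p, k, rfl, h4⟩ := (m10 h0 hv q a d).1 h1
    obtain rfl := ph0 h0 hv q a h2
    obtain rfl := rel0 h3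
    exact (m10 h0 hv q a _).2 ⟨p1, k, rfl, h4⟩
  · -- i1
    intro d e h1 h2 h3
    obtain ⟨p, k, rfl, h4⟩ := (m10 h0 hv q a d).1 h1
    obtain rfl := ph1 h0 hv q a h2
    obtain rfl := rel1 h3
    exact (m10 h0 hv q a _).2 ⟨p2, k, rfl, h4⟩
  · -- i2
    intro d h1 h2
    obtain ⟨p, k, rfl, h4⟩ := (m10 h0 hv q a d).1 h1
    obtain rfl := ph2 h0 hv q a h2
    refine (m8 h0 hv q a _).2 ⟨true, p2, k, rfl, Or.inr ⟨rfl, ?_⟩⟩
    show blk h0 hv (k + 1) = blk h0 hv k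
    rw [blk_zero h0 hv (by omega : k + 1 ≤ ini.length), blk_zero h0 hv (by omega : k ≤ ini.length)]
  · -- reading the initial word
    have hR : ∀ m k, k + m = ini.length →
        Rd (MA h0 hv q a) s K δ (ini.drop k) (trk true p0 k : El Bool) := by
      intro m
      induction m with
      | zero =>
        intro k hk
        have hk : k = ini.length := by omega
        rw [hk, List.drop_length]
        refine starts h0 hv q a s K δ le_rfl ?_
        rw [blk_zero h0 hv le_rfl]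
        simp [cat]
      | succ m ih =>
        intro k hk
        rw [List.drop_eq_getElem_cons (by omega : k < ini.length)]
        refine ⟨(m10 h0 hv q a _).2 ⟨p0, k, rfl, by omega⟩, (unL hP _ _).2 ⟨k, rfl, ?_⟩, ?_⟩
        · rw [← hlet 0 k (by simp only [cat]; omega), cat, List.getD_eq_getElem]
        · intro e1 h1 e2 h2 e3 h3 e4 h4
          obtain rfl := rel0 h1
          obtain rfl := rel1 h2
          obtain rfl := rel2 h3
          obtain rfl := rel3 h4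
          exact ih (k + 1) (by omega)
    exact ⟨(trk true p0 0 : El Bool), rfl, hR ini.length 0 (by omega)⟩

end

end Pool.Agent.LibFO2E
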