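import Mathlib
import Pool.Agent.LibFO2E.Build

set_option autoImplicit false

namespace Pool.Agent.LibFO2E
open Fml Var

section sig
@[simp] theorem usig_un (P : ℕ) (v : Var) : usig (un P v) = {P} := rfl
@[simp] theorem usig_bin (R : ℕ) (v w : Var) : usig (bin R v w) = ∅ := rfl
@[simp] theorem usig_neg (φ : Fml) : usig (neg φ) = usig φ := rfl
@[simp] theorem usig_and (φ ψ : Fml) : usig (and φ ψ) = usig φ ∪ usig ψ := rfl
@[simp] theorem usig_ex (v : Var) (φ : Fml) : usig (ex v φ) = usig φ := rfl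
@[simp] theorem usig_imp (φ ψ : Fml) : usig (imp φ ψ) = usig φ ∪ usig ψ := rfl
@[simp] theorem usig_or (φ ψ : Fml) : usig (or φ ψ) = usig φ ∪ usig ψ := rfl
@[simp] theorem usig_all (v : Var) (φ : Fml) : usig (all v φ) = usig φ := rfl
@[simp] theorem usig_ax (φ ψ : Fml) : usig (ax φ ψ) = usig φ ∪ usig ψ := rfl
@[simp] theorem usig_taut : usig taut = {0} := by simp [taut]
@[simp] theorem mem_usig_conj (l : List Fml) (n : ℕ) :
    n ∈ usig (conj l) ↔ n = 0 ∨ ∃ φ ∈ l, n ∈ usig φ := by
  induction l with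
  | nil => simp [conj]
  | cons φ l ih =>
    rw [show conj (φ :: l) = and φ (conj l) from rfl, usig_and, Set.mem_union, ih]
    simp only [List.mem_cons, exists_eq_or_imp]
    tauto
@[simp] theorem mem_usig_disj (l : List Fml) (n : ℕ) :
    n ∈ usig (disj l) ↔ n = 0 ∨ ∃ φ ∈ l, n ∈ usig φ := by
  induction l with
  | nil => simp [disj]
  | cons φ l ih =>
    rw [show disj (φ :: l) = or φ (disj l) from rfl, usig_or, Set.mem_union, ih]
    simp only [List.mem_cons, exists_eq_or_imp]
    tauto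
@[simp] theorem mem_usig_conjF (m n : ℕ) (f : ℕ → Fml) :
    n ∈ usig (conjF m f) ↔ n = 0 ∨ ∃ i < m, n ∈ usig (f i) := by
  simp [conjF]
@[simp] theorem mem_usig_disjF (m n : ℕ) (f : ℕ → Fml) :
    n ∈ usig (disjF m f) ↔ n = 0 ∨ ∃ i < m, n ∈ usig (f i) := by
  simp [disjF]

@[simp] theorem bsig_un (P : ℕ) (v : Var) : bsig (un P v) = ∅ := rfl
@[simp] theorem bsig_bin (R : ℕ) (v w : Var) : bsig (bin R v w) = {R} := rfl
@[simp] theorem bsig_neg (φ : Fml) : bsig (neg φ) = bsig φ := rfl
@[simp] theorem bsig_and (φ ψ : Fml) : bsig (and φ ψ) = bsig φ ∪ bsig ψ := rfl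
@[simp] theorem bsig_ex (v : Var) (φ : Fml) : bsig (ex v φ) = bsig φ := rfl
@[simp] theorem bsig_imp (φ ψ : Fml) : bsig (imp φ ψ) = bsig φ ∪ bsig ψ := rfl
@[simp] theorem bsig_or (φ ψ : Fml) : bsig (or φ ψ) = bsig φ ∪ bsig ψ := rfl
@[simp] theorem bsig_all (v : Var) (φ : Fml) : bsig (all v φ) = bsig φ := rfl
@[simp] theorem bsig_ax (φ ψ : Fml) : bsig (ax φ ψ) = bsig φ ∪ bsig ψ := rfl
@[simp] theorem bsig_taut : bsig taut = ∅ := by simp [taut]
@[simp] theorem mem_bsig_conj (l : List Fml) (n : ℕ) :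
    n ∈ bsig (conj l) ↔ ∃ φ ∈ l, n ∈ bsig φ := by
  induction l with
  | nil => simp [conj]
  | cons φ l ih =>
    rw [show conj (φ :: l) = and φ (conj l) from rfl, bsig_and, Set.mem_union, ih]
    simp only [List.mem_cons, exists_eq_or_imp]
@[simp] theorem mem_bsig_disj (l : List Fml) (n : ℕ) :
    n ∈ bsig (disj l) ↔ ∃ φ ∈ l, n ∈ bsig φ := by
  induction l with
  | nil => simp [disj]
  | cons φ l ih =>
    rw [show disj (φ :: l) = or φ (disj l) from rfl, bsig_or, Set.mem_union, ih]
    simp only [List.mem_cons, exists_eq_or_imp]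
@[simp] theorem mem_bsig_conjF (m n : ℕ) (f : ℕ → Fml) :
    n ∈ bsig (conjF m f) ↔ ∃ i < m, n ∈ bsig (f i) := by
  simp [conjF]
@[simp] theorem mem_bsig_disjF (m n : ℕ) (f : ℕ → Fml) :
    n ∈ bsig (disjF m f) ↔ ∃ i < m, n ∈ bsig (f i) := by
  simp [disjF]

@[simp] theorem fv_un (P : ℕ) (v : Var) : fv (un P v) = {v} := rfl
@[simp] theorem fv_bin (R : ℕ) (v w : Var) : fv (bin R v w) = {v, w} := rfl
@[simp] theorem fv_neg (φ : Fml) : fv (neg φ) = fv φ := rfl
@[simp] theorem fv_and (φ ψ : Fml) : fv (and φ ψ) = fv φ ∪ fv ψ := rfl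
@[simp] theorem fv_ex (v : Var) (φ : Fml) : fv (ex v φ) = fv φ \ {v} := rfl
@[simp] theorem fv_imp (φ ψ : Fml) : fv (imp φ ψ) = fv φ ∪ fv ψ := rfl
@[simp] theorem fv_or (φ ψ : Fml) : fv (or φ ψ) = fv φ ∪ fv ψ := rfl
@[simp] theorem fv_all (v : Var) (φ : Fml) : fv (all v φ) = fv φ \ {v} := rfl
@[simp] theorem fv_ax (φ ψ : Fml) : fv (ax φ ψ) = ∅ := by
  ext v
  simp only [ax, fv_all, fv_imp, Set.mem_sdiff, Set.mem_union, Set.mem_singleton_iff,
    Set.mem_empty_iff_false, iff_false]
  cases v <;> simp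
@[simp] theorem fv_taut : fv taut = {x} := by simp [taut]
@[simp] theorem mem_fv_conj (l : List Fml) (v : Var) :
    v ∈ fv (conj l) ↔ v = x ∨ ∃ φ ∈ l, v ∈ fv φ := by
  induction l with
  | nil => simp [conj]
  | cons φ l ih =>
    rw [show conj (φ :: l) = and φ (conj l) from rfl, fv_and, Set.mem_union, ih]
    simp only [List.mem_cons, exists_eq_or_imp]
    tauto
@[simp] theorem mem_fv_disj (l : List Fml) (v : Var) :
    v ∈ fv (disj l) ↔ v = x ∨ ∃ φ ∈ l, v ∈ fv φ := by
  induction l with
  | nil => simp [disj]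
  | cons φ l ih =>
    rw [show disj (φ :: l) = or φ (disj l) from rfl, fv_or, Set.mem_union, ih]
    simp only [List.mem_cons, exists_eq_or_imp]
    tauto
@[simp] theorem mem_fv_conjF (m : ℕ) (v : Var) (f : ℕ → Fml) :
    v ∈ fv (conjF m f) ↔ v = x ∨ ∃ i < m, v ∈ fv (f i) := by
  simp [conjF]
@[simp] theorem mem_fv_disjF (m : ℕ) (v : Var) (f : ℕ → Fml) :
    v ∈ fv (disjF m f) ↔ v = x ∨ ∃ i < m, v ∈ fv (f i) := by
  simp [disjF]
end sig

theorem usig_ite (p : Prop) [Decidable p] (φ ψ : Fml) :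
    usig (if p then φ else ψ) ⊆ usig φ ∪ usig ψ := by split_ifs <;> simp

theorem usig_psi (k n : ℕ) (h : n ∈ usig (psi k)) : n ≤ 5 ∨ ∃ c, n = 4 * c + 16 := by
  simp only [psi, npsi, shAx, uniq, E1, E2, R, usig_neg, mem_usig_conj, List.mem_cons,
    List.not_mem_nil, or_false, exists_eq_or_imp, exists_eq_left, usig_ax, usig_and, usig_un,
    usig_bin, usig_all, usig_imp, mem_usig_conjF, Set.mem_union, Set.mem_singleton_iff,
    Set.mem_empty_iff_false, false_or, or_false, Ls] at h
  have key : ∀ c c', n ∈ usig (if c = c' then un (4 * c' + 16) y else neg (un (4 * c' + 16) y)) →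
      n = 4 * c' + 16 := by
    intro c c' h
    split_ifs at h <;> simpa using h
  by_contra hcon
  push Not at hcon
  obtain ⟨h5, h6⟩ := hcon
  rcases h with h | h | h | h | h | h | h | h | h | h
  · omega
  · omega
  · omega
  · rcases h with h | h | h | h | h | h | h
    all_goals try omega
    rcases h with h | ⟨i, -, h⟩
    · omega
    · rcases h with h | h
      · exact h6 _ h
      · omega
  all_goals try omega
  rcases h with h | ⟨i, -, h⟩
  · omega
  · rcases h with h | ⟨j, -, h⟩
    · omega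
    · rcases h with h | h
      · rcases h with h | h | h | h | h
        all_goals try omega
        exact h6 _ h
      · exact h6 _ (key _ _ h)


section
variable (s k : ℕ) (δ : ℕ → ℕ → Option (ℕ × List ℕ)) (q₀ : ℕ) (l : List ℕ)

@[simp] theorem five_ne_L (c : ℕ) : ¬ 5 = Ls c := by simp only [Ls]; omega
@[simp] theorem five_ne_X (q c : ℕ) : ¬ 5 = Xs q c := by simp only [Xs]; omega
@[simp] theorem five_ne_N (q : ℕ) : ¬ 5 = Ns q := by simp only [Ns]; omega
@[simp] theorem five_ne_K (q c p : ℕ) : ¬ 5 = Ks q c p := by simp only [Ks]; omega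

theorem not_mem_usig_conjD (f : ℕ → ℕ → ℕ × List ℕ → Fml)
    (h : ∀ q c r, 5 ∉ usig (f q c r)) : 5 ∉ usig (conjD s k δ f) := by
  simp only [conjD, mem_usig_conjF]
  rintro (h1 | ⟨q, -, h1 | ⟨c, -, h1⟩⟩)
  · omega
  · omega
  · rcases hr : δ q c with _ | r
    · rw [hr] at h1; simp at h1
    · rw [hr] at h1
      exact h q c r h1

theorem usig_start (v : Var) : 5 ∉ usig (start s k δ v) := by
  apply not_mem_usig_conjD
  intro q c r
  simp

theorem usig_zst (q : ℕ) : 5 ∉ usig (zst k δ q) := by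
  simp only [zst, mem_usig_disjF]
  rintro (h | ⟨c, -, h⟩)
  · omega
  · split_ifs at h
    · simp at h
    · simp at h

theorem usig_kax (q a : ℕ) (r : ℕ × List ℕ) (p : ℕ) : 5 ∉ usig (kax s k δ q a r p) := by
  have h1 : 5 ∉ usig (if p + 1 < r.2.length then un (Ks q a (p + 1)) y else start s k δ y) := by
    split_ifs
    · simp
    · exact usig_start s k δ y
  have h2 : ¬ 5 = (if p + 1 < r.2.length then 8 else 9) := by split_ifs <;> omega
  simp only [kax, R, mem_usig_conj, List.mem_cons,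
    List.not_mem_nil, or_false, exists_eq_or_imp, exists_eq_left, usig_ax, usig_and, usig_un,
    usig_bin, usig_all, usig_imp, Set.mem_union, Set.mem_singleton_iff,
    Set.mem_empty_iff_false, h1, h2, five_ne_K, five_ne_L]
  simp

theorem usig_shAx5 : 5 ∉ usig (shAx k) := by
  simp [shAx, E1, E2, R]

theorem usig_rd5 : 5 ∉ usig (rd s k δ l) := by
  induction l with
  | nil => exact usig_start s k δ y
  | cons c l ih =>
    rw [show rd s k δ (c :: l) = pre c (rd s k δ l) from rfl]
    simp [pre, R, ih]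

theorem five_not_mem_phi : 5 ∉ usig (phi s k δ q₀ l) := by
  have h1 : 5 ∉ usig (conjD s k δ fun q a _ =>
      ax (and (un 8 x) (and (un 8 y) (and (E1 x y) (un (Xs q a) x)))) (un (Xs q a) y)) :=
    not_mem_usig_conjD s k δ _ fun q c r => by simp [E1]
  have h2 : 5 ∉ usig (conjD s k δ fun q a _ =>
      all x (imp (and (un 6 x) (and (un 0 x) (un (Xs q a) x))) (un (Ls a) x))) :=
    not_mem_usig_conjD s k δ _ fun q c r => by simp
  have h3 : 5 ∉ usig (conjD s k δ fun q a r =>
      ax (and (un 6 x) (and (un 0 x) (and (un (Xs q a) x) (R x y)))) (un (Ns r.1) y)) :=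
    not_mem_usig_conjD s k δ _ fun q c r => by simp [R]
  have h4 : 5 ∉ usig (conjD s k δ fun q a r => conjF r.2.length fun p => kax s k δ q a r p) :=
    not_mem_usig_conjD s k δ _ fun q c r => by simp [usig_kax]
  simp only [phi, phi0, mem_usig_conj, List.mem_cons,
    List.not_mem_nil, or_false, exists_eq_or_imp, exists_eq_left, usig_and, usig_ex,
    Set.mem_union, h1, h2, h3, h4, usig_shAx5, usig_rd5]
  simp [R, E1, E2, usig_zst]

theorem mem_shAx {n : ℕ} (h : n = 0 ∨ ∃ c < k, n = Ls c) : n ∈ usig (shAx k) := by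
  simp only [shAx, mem_usig_conj]
  rcases h with h | ⟨c, hc, rfl⟩
  · exact Or.inl h
  · refine Or.inr ⟨_, List.mem_cons_of_mem _ (List.mem_cons_of_mem _ (List.mem_cons_of_mem _
      (List.mem_cons_of_mem _ (List.mem_cons_of_mem _ (List.mem_cons_self ..))))), ?_⟩
    rw [mem_usig_conjF]
    exact Or.inr ⟨c, hc, by simp⟩

theorem mem_reach {n c p : ℕ} (h : n ∈ usig (reach c p)) : n = Ls c := by
  induction p with
  | zero => simpa [reach] using h
  | succ p ih => simp only [reach, dia, usig_ex, usig_and, R, usig_bin, Set.empty_union] at h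
                 exact ih h

theorem mem_iota {n N : ℕ} (h : n ∈ usig (iota k N)) : n = 0 ∨ ∃ c < k, n = Ls c := by
  simp only [iota, mem_usig_disjF] at h
  rcases h with h | ⟨p, -, h | ⟨c, hc, h | ⟨c', hc', h⟩⟩⟩
  · exact Or.inl h
  · exact Or.inl h
  · exact Or.inl h
  · split_ifs at h
    · simp at h; exact Or.inl h
    · simp only [usig_and, usig_ex, R, usig_bin, Set.empty_union, Set.mem_union] at h
      rcases h with h | h
      · exact Or.inr ⟨c, hc, mem_reach h⟩
      · exact Or.inr ⟨c', hc', mem_reach h⟩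

theorem usig_iota (N : ℕ) : usig (iota k N) ⊆ usig (phi s k δ q₀ l) ∩ usig (psi k) := by
  intro n hn
  have h1 := mem_shAx k (mem_iota k hn)
  constructor
  · simp only [phi, phi0, usig_and, Set.mem_union, mem_usig_conj]
    exact Or.inl (Or.inr ⟨_, List.mem_cons_of_mem _ (List.mem_cons_of_mem _
      (List.mem_cons_self ..)), h1⟩)
  · simp only [psi, npsi, usig_neg, mem_usig_conj]
    exact Or.inr ⟨_, List.mem_cons_of_mem _ (List.mem_cons_of_mem _ (List.mem_cons_self ..)), h1⟩

theorem mem_breach {n c p : ℕ} (h : n ∈ bsig (reach c p)) : n = 2 := by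
  induction p with
  | zero => simp [reach] at h
  | succ p ih =>
    simp only [reach, dia, bsig_ex, bsig_and, R, bsig_bin, Set.mem_union,
      Set.mem_singleton_iff] at h
    rcases h with h | h | h | h | h
    · exact h
    · exact h
    · exact h
    · exact h
    · exact ih h

theorem bsig_iota (N : ℕ) : bsig (iota k N) ⊆ bsig (phi s k δ q₀ l) ∩ bsig (psi k) := by
  intro n hn
  have h0 : n = 2 := by
    simp only [iota, mem_bsig_disjF] at hn
    obtain ⟨p, -, c, hc, c', hc', h⟩ := hn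
    split_ifs at h
    · simp at h
    · simp only [bsig_and, bsig_ex, R, bsig_bin, Set.mem_union, Set.mem_singleton_iff] at h
      rcases h with (h | h) | (h | h)
      · exact h
      · exact mem_breach h
      · exact h
      · exact mem_breach h
  subst h0
  have h1 : 2 ∈ bsig (shAx k) := by
    simp [shAx, R]
  constructor
  · simp only [phi, phi0, bsig_and, Set.mem_union, mem_bsig_conj]
    exact Or.inl ⟨_, List.mem_cons_of_mem _ (List.mem_cons_of_mem _
      (List.mem_cons_self ..)), h1⟩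
  · simp only [psi, npsi, bsig_neg, mem_bsig_conj]
    exact ⟨_, List.mem_cons_of_mem _ (List.mem_cons_of_mem _ (List.mem_cons_self ..)), h1⟩

theorem fv_shAx : y ∉ fv (shAx k) := by
  simp [shAx]

theorem not_mem_fv_conjD (v : Var) (hv : v ≠ x) (f : ℕ → ℕ → ℕ × List ℕ → Fml)
    (h : ∀ q c r, v ∉ fv (f q c r)) : v ∉ fv (conjD s k δ f) := by
  simp only [conjD, mem_fv_conjF]
  rintro (h1 | ⟨q, -, h1 | ⟨c, -, h1⟩⟩)
  · exact hv h1
  · exact hv h1
  · rcases hr : δ q c with _ | r
    · rw [hr] at h1; simp at h1; exact hv h1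
    · rw [hr] at h1
      exact h q c r h1


theorem fv_zst (q : ℕ) (v : Var) : v ∈ fv (zst k δ q) → v = x ∨ v = y := by
  intro _
  cases v
  · exact Or.inl rfl
  · exact Or.inr rfl

theorem fv_sub (φ : Fml) (h : y ∉ fv φ) : fv φ ⊆ {x} := by
  intro v hv
  cases v
  · rfl
  · exact absurd hv h

theorem fv_kax (q a : ℕ) (r : ℕ × List ℕ) (p : ℕ) : y ∉ fv (kax s k δ q a r p) := by
  simp [kax]

theorem fv_phi0 : y ∉ fv (phi0 s k δ q₀) := by
  have h1 : y ∉ fv (conjD s k δ fun q a _ =>
      ax (and (un 8 x) (and (un 8 y) (and (E1 x y) (un (Xs q a) x)))) (un (Xs q a) y)) :=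
    not_mem_fv_conjD s k δ _ (by simp) _ fun q c r => by simp
  have h2 : y ∉ fv (conjD s k δ fun q a _ =>
      all x (imp (and (un 6 x) (and (un 0 x) (un (Xs q a) x))) (un (Ls a) x))) :=
    not_mem_fv_conjD s k δ _ (by simp) _ fun q c r => by simp
  have h3 : y ∉ fv (conjD s k δ fun q a r =>
      ax (and (un 6 x) (and (un 0 x) (and (un (Xs q a) x) (R x y)))) (un (Ns r.1) y)) :=
    not_mem_fv_conjD s k δ _ (by simp) _ fun q c r => by simp
  have h4 : y ∉ fv (conjD s k δ fun q a r => conjF r.2.length fun p => kax s k δ q a r p) :=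
    not_mem_fv_conjD s k δ _ (by simp) _ fun q c r => by simp [fv_kax]
  simp only [phi0, mem_fv_conj, List.mem_cons,
    List.not_mem_nil, or_false, exists_eq_or_imp, exists_eq_left, h1, h2, h3, h4, fv_shAx]
  simp

theorem fv_phi : fv (phi s k δ q₀ l) = {x} := by
  apply Set.Subset.antisymm
  · apply fv_sub
    simp only [phi, fv_and, fv_ex, Set.mem_union, Set.mem_sdiff, Set.mem_singleton_iff,
      fv_phi0, false_or]
    simp
  · rintro v rfl
    simp only [phi, phi0, fv_and, Set.mem_union, mem_fv_conj]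
    exact Or.inl (Or.inl trivial)

theorem fv_psi : fv (psi k) = {x} := by
  apply Set.Subset.antisymm
  · apply fv_sub
    simp [psi, npsi, fv_shAx, uniq]
  · rintro v rfl
    simp only [psi, npsi, fv_neg, mem_fv_conj]
    exact Or.inl trivial

theorem fv_iota (N : ℕ) : fv (iota k N) ⊆ {x} := by
  apply fv_sub
  simp only [iota, mem_fv_disjF]
  rintro (h | ⟨p, -, h | ⟨c, hc, h | ⟨c', hc', h⟩⟩⟩)
  · cases h
  · cases h
  · cases h
  · split_ifs at h
    · simp at h
    · simp at h

/-! ### The Gödel number -/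

theorem code_and (φ ψ : Fml) : code (and φ ψ) = 5 * Nat.pair (code φ) (code ψ) + 3 := rfl
theorem code_neg (φ : Fml) : code (neg φ) = 5 * code φ + 2 := rfl
theorem code_ex (v : Var) (φ : Fml) : code (ex v φ) = 5 * (2 * code φ + v.num) + 4 := rfl

theorem pr_and {α : Type} [Primcodable α] {f g : α → ℕ} (hf : Primrec f) (hg : Primrec g) :
    Primrec fun a => 5 * Nat.pair (f a) (g a) + 3 :=
  Primrec.nat_add.comp (Primrec.nat_mul.comp (Primrec.const 5) (Primrec₂.natPair.comp hf hg))
    (Primrec.const 3)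

theorem pr_neg {α : Type} [Primcodable α] {f : α → ℕ} (hf : Primrec f) :
    Primrec fun a => 5 * f a + 2 :=
  Primrec.nat_add.comp (Primrec.nat_mul.comp (Primrec.const 5) hf) (Primrec.const 2)

theorem pr_ex {α : Type} [Primcodable α] {f : α → ℕ} (v : Var) (hf : Primrec f) :
    Primrec fun a => 5 * (2 * f a + v.num) + 4 :=
  Primrec.nat_add.comp (Primrec.nat_mul.comp (Primrec.const 5)
    (Primrec.nat_add.comp (Primrec.nat_mul.comp (Primrec.const 2) hf) (Primrec.const _)))
    (Primrec.const 4)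

/-- numeric version of `imp` -/
theorem pr_imp {α : Type} [Primcodable α] {F G : α → Fml} (hf : Primrec fun a => code (F a))
    (hg : Primrec fun a => code (G a)) : Primrec fun a => code (imp (F a) (G a)) :=
  pr_neg (pr_and hf (pr_neg hg))

theorem pr_all {α : Type} [Primcodable α] {F : α → Fml} (v : Var)
    (hf : Primrec fun a => code (F a)) : Primrec fun a => code (all v (F a)) :=
  pr_neg (pr_ex v (pr_neg hf))

/-- the code of `pre c F` as a function of `c` and `code F` -/
theorem exists_pre : ∃ f : ℕ → ℕ → ℕ, Primrec₂ f ∧ ∀ c F, code (pre c F) = f c (code F) := by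
  obtain ⟨dec, hdec⟩ := Function.Surjective.hasRightInverse code_surjective
  refine ⟨fun c n => code (pre c (dec n)), ?_, fun c F => by
    show code (pre c F) = code (pre c (dec (code F)))
    rw [code_injective (hdec (code F))]⟩
  have h1 : Primrec fun p : ℕ × ℕ => code (dec p.2) := by
    have : (fun p : ℕ × ℕ => code (dec p.2)) = fun p => p.2 := funext fun p => hdec p.2
    rw [this]
    exact Primrec.snd
  have h2 : Primrec fun p : ℕ × ℕ => code (un (Ls p.1) y) := by
    have : (fun p : ℕ × ℕ => code (un (Ls p.1) y)) =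
        fun p : ℕ × ℕ => 5 * (2 * (4 * p.1 + 16) + 1) := rfl
    rw [this]
    exact Primrec.nat_mul.comp (Primrec.const 5) (Primrec.nat_add.comp (Primrec.nat_mul.comp
      (Primrec.const 2) (Primrec.nat_add.comp (Primrec.nat_mul.comp (Primrec.const 4) Primrec.fst)
        (Primrec.const 16))) (Primrec.const 1))
  exact pr_and (Primrec.const _) (pr_and h2 (pr_all x (pr_imp (Primrec.const _) (pr_all y (pr_imp
    (Primrec.const _) (pr_all x (pr_imp (Primrec.const _) (pr_all y (pr_imp
      (Primrec.const _) h1)))))))))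

theorem primrec_code_rd : Primrec fun l : List ℕ => code (rd s k δ l) := by
  obtain ⟨f, hf, hf'⟩ := exists_pre
  have h1 : (fun l : List ℕ => code (rd s k δ l)) =
      fun l : List ℕ => l.foldr f (code (start s k δ y)) := by
    funext l
    induction l with
    | nil => rfl
    | cons c l ih =>
      rw [show rd s k δ (c :: l) = pre c (rd s k δ l) from rfl, hf', ih]
      rfl
  rw [h1]
  exact Primrec.list_foldr Primrec.id (Primrec.const _)
    (hf.comp (Primrec.fst.comp Primrec.snd) (Primrec.snd.comp Primrec.snd)).to₂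

/-- The Gödel number of `phi` is a primitive recursive function of the initial word. -/
theorem primrec_code_phi : Primrec fun l : List ℕ => code (phi s k δ q₀ l) :=
  pr_and (Primrec.const _) (pr_ex y (pr_and (Primrec.const _) (primrec_code_rd s k δ)))

end

end Pool.Agent.LibFO2E
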